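import Pool.Agent.Helper52.ES.Spec

set_option autoImplicit false

/-! # Module TR1: from a Hamiltonian cycle of the drawing to a set of used edges -/

namespace Pool.Agent.Helper18.ES

open Pool.Agent.Helper52.ES Pool.Agent.Helper52.Grid

/-! ### costs at the right end of the formula graph -/

section costs

variable (s : List Sub) (M : ℕ)

theorem hC_R (j i r : ℕ) (hi : i < 2 * M + 1) (hr : r < 6) :
    hC s M (5 + 4 * s.length + j) (4 + 6 * i + r) = hR r j := by
  unfold hC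
  have h1 : ¬ (4 + 6 * i + r < 4) := by omega
  have h2 : (4 + 6 * i + r - 4) / 6 = i := by omega
  have h3 : (4 + 6 * i + r - 4) % 6 = r := by omega
  have h4 : ¬ (5 + 4 * s.length + j < 5) := by omega
  have h5 : ¬ (5 + 4 * s.length + j < 5 + 4 * s.length) := by omega
  have h6 : 5 + 4 * s.length + j - (5 + 4 * s.length) = j := by omega
  rw [if_neg h1, h2, h3, if_pos hi, if_neg h4, if_neg h5, h6]

theorem vC_R (j i r : ℕ) (hi : i < 2 * M + 1) (hr : r < 6) :
    vC s M (5 + 4 * s.length + j) (4 + 6 * i + r) = vR i r j := by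
  unfold vC
  have h1 : ¬ (4 + 6 * i + r < 4) := by omega
  have h2 : (4 + 6 * i + r - 4) / 6 = i := by omega
  have h3 : (4 + 6 * i + r - 4) % 6 = r := by omega
  have h4 : ¬ (5 + 4 * s.length + j < 5) := by omega
  have h5 : ¬ (5 + 4 * s.length + j < 5 + 4 * s.length) := by omega
  have h6 : 5 + 4 * s.length + j - (5 + 4 * s.length) = j := by omega
  rw [if_neg h1, h2, h3, if_pos hi, if_neg h4, if_neg h5, h6]

theorem hC_out (x i r : ℕ) (hi : 2 * M + 1 ≤ i) (hr : r < 6) :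
    hC s M x (4 + 6 * i + r) = 4 := by
  unfold hC
  have h1 : ¬ (4 + 6 * i + r < 4) := by omega
  have h2 : (4 + 6 * i + r - 4) / 6 = i := by omega
  have h3 : ¬ (i < 2 * M + 1) := by omega
  rw [if_neg h1, h2, if_neg h3]

theorem vC_out (x i r : ℕ) (hi : 2 * M + 1 ≤ i) (hr : r < 6) :
    vC s M x (4 + 6 * i + r) = 4 := by
  unfold vC
  have h1 : ¬ (4 + 6 * i + r < 4) := by omega
  have h2 : (4 + 6 * i + r - 4) / 6 = i := by omega
  have h3 : ¬ (i < 2 * M + 1) := by omega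
  rw [if_neg h1, h2, if_neg h3]

theorem hC_T (j y : ℕ) (hy : y < 4) :
    hC s M (5 + 4 * s.length + j) y = if y = 3 ∧ j < 2 then 0 else 4 := by
  unfold hC hT
  have h4 : ¬ (5 + 4 * s.length + j < 5) := by omega
  have h5 : ¬ (5 + 4 * s.length + j < 5 + 4 * s.length) := by omega
  rw [if_pos hy, if_neg h4, if_neg h5]
  by_cases h : y = 3 ∧ j < 2
  · rw [if_pos h, if_pos ⟨h.1, by omega⟩]
  · rw [if_neg h, if_neg]
    rintro ⟨h1, h2⟩
    exact h ⟨h1, by omega⟩

theorem vC_T (j y : ℕ) (hy : y < 4) :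
    vC s M (5 + 4 * s.length + j) y = if y = 3 ∧ j = 2 then 0 else 4 := by
  unfold vC vT
  have h4 : ¬ (5 + 4 * s.length + j < 5) := by omega
  have h5 : ¬ (5 + 4 * s.length + j < 5 + 4 * s.length) := by omega
  rw [if_pos hy, if_neg h4, if_neg h5]
  by_cases h : y = 3 ∧ j = 2
  · rw [if_pos h, if_pos ⟨h.1, by omega⟩]
  · rw [if_neg h, if_neg]
    rintro ⟨h1, h2⟩
    exact h ⟨h1, by omega⟩

end costs

section

variable (p : Par)

theorem K0_eq : p.K0 = 5 + 4 * p.s.length := rfl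

theorem ph_lt {x : ℕ} (hx : x < p.K0) (y : ℕ) : p.h x y = hC p.s p.M x y := by
  unfold Par.h; rw [if_pos hx]

theorem pv_lt {x : ℕ} (hx : x < p.K0) (y : ℕ) : p.v x y = vC p.s p.M x y := by
  unfold Par.v; rw [if_pos hx]

theorem ph_gt {x : ℕ} (hx : p.K0 < x) (y : ℕ) : p.h x y = 4 := by
  unfold Par.h
  rw [if_neg (by omega), if_neg (by omega)]

theorem pv_gt {x : ℕ} (hx : p.K0 + 1 < x) (y : ℕ) : p.v x y = 4 := by
  unfold Par.v
  rw [if_neg (by omega), if_neg (by omega), if_neg (by omega)]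

theorem pv_K1 (y : ℕ) : p.v (p.K0 + 1) y = 0 ↔
    3 ≤ y ∧ (y - 1) / 6 % 2 = 0 ∧ (y - 1) / 6 ≤ 2 * p.M := by
  unfold Par.v
  rw [if_neg (by omega), if_neg (by omega), if_pos rfl]
  constructor
  · intro h
    by_contra h'
    rw [if_neg h'] at h
    exact absurd h (by norm_num)
  · intro h
    rw [if_pos h]

variable (E : Vx → Vx → Prop)

/-- the optional horizontal edges -/
def OH (x y : ℕ) : Prop :=
  if x < p.K0 then E (lat x y) (lat (x + 1) y)
  else if (y - 4) % 6 = 3 then E (ring ((y - 4) / 6) 0) (ring ((y - 4) / 6) 1)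
  else E (ring ((y - 4) / 6) 2) (ring ((y - 4) / 6) 3)

/-- the optional vertical edges -/
def OV (x y : ℕ) : Prop :=
  if x < p.K0 then E (lat x y) (lat x (y + 1))
  else if x = p.K0 then E (ring ((y - 4) / 6) 1) (ring ((y - 4) / 6) 2)
  else E (ring ((y - 4) / 6) 3) (ring ((y - 4) / 6) 0)

open Classical in
/-- the used horizontal edges -/
noncomputable def HU (x y : ℕ) : Bool :=
  if hC p.s p.M x y = 0 then true else if hC p.s p.M x y = 2 then decide (OH p E x y) else false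

open Classical in
/-- the used vertical edges -/
noncomputable def VU (x y : ℕ) : Bool :=
  if vC p.s p.M x y = 0 then true else if vC p.s p.M x y = 2 then decide (OV p E x y) else false

theorem HU_0 {x y : ℕ} (h : hC p.s p.M x y = 0) : HU p E x y = true := by
  unfold HU; rw [if_pos h]

theorem VU_0 {x y : ℕ} (h : vC p.s p.M x y = 0) : VU p E x y = true := by
  unfold VU; rw [if_pos h]

open Classical in
theorem HU_2 {x y : ℕ} (h : hC p.s p.M x y = 2) : HU p E x y = decide (OH p E x y) := by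
  unfold HU; rw [if_neg (by rw [h]; norm_num), if_pos h]

open Classical in
theorem VU_2 {x y : ℕ} (h : vC p.s p.M x y = 2) : VU p E x y = decide (OV p E x y) := by
  unfold VU; rw [if_neg (by rw [h]; norm_num), if_pos h]

theorem HU_4 {x y : ℕ} (h : hC p.s p.M x y ≠ 0) (h' : hC p.s p.M x y ≠ 2) :
    HU p E x y = false := by
  unfold HU; rw [if_neg h, if_neg h']

theorem VU_4 {x y : ℕ} (h : vC p.s p.M x y ≠ 0) (h' : vC p.s p.M x y ≠ 2) :
    VU p E x y = false := by
  unfold VU; rw [if_neg h, if_neg h']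

/-! ### optional pairs -/

theorem O1_inv {a b : Vx} (h : p.O1 a b) :
    (∃ x y, a = lat x y ∧ b = lat (x + 1) y ∧ x < p.K0 ∧ p.h x y = 2) ∨
    (∃ x y, a = lat x y ∧ b = lat x (y + 1) ∧ x < p.K0 ∧ p.v x y = 2) ∨
    (∃ i c, a = ring i c ∧ b = ring i ((c + 1) % 4) ∧ i < p.rows ∧ c < 4) := by
  cases h with
  | hor x y h1 h2 => exact Or.inl ⟨x, y, rfl, rfl, h1, h2⟩
  | ver x y h1 h2 => exact Or.inr (Or.inl ⟨x, y, rfl, rfl, h1, h2⟩)
  | rin i c h1 h2 => exact Or.inr (Or.inr ⟨i, c, rfl, rfl, h1, h2⟩)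

/-! ### counting -/

theorem count4 {α : Type} (N : α → Prop) (r1 r2 r3 r4 : Bool) (n1 n2 n3 n4 : α)
    (h12 : n1 ≠ n2) (h13 : n1 ≠ n3) (h14 : n1 ≠ n4) (h23 : n2 ≠ n3) (h24 : n2 ≠ n4)
    (h34 : n3 ≠ n4)
    (hN : ∀ d, N d ↔ (r1 = true ∧ d = n1) ∨ (r2 = true ∧ d = n2) ∨ (r3 = true ∧ d = n3) ∨
      (r4 = true ∧ d = n4))
    (h2 : ∃ b c, b ≠ c ∧ ∀ d, N d ↔ (d = b ∨ d = c)) :
    r1.toNat + r2.toNat + r3.toNat + r4.toNat = 2 := by
  obtain ⟨b, c, hbc, hd⟩ := h2
  let L : List α := (if r1 = true then [n1] else []) ++ ((if r2 = true then [n2] else []) ++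
    ((if r3 = true then [n3] else []) ++ (if r4 = true then [n4] else [])))
  have hL : L.Nodup := by
    show ((if r1 = true then [n1] else []) ++ ((if r2 = true then [n2] else []) ++
      ((if r3 = true then [n3] else []) ++ (if r4 = true then [n4] else [])))).Nodup
    cases r1 <;> cases r2 <;> cases r3 <;> cases r4 <;> simp_all
  have hlen : L.length = r1.toNat + r2.toNat + r3.toNat + r4.toNat := by
    show ((if r1 = true then [n1] else []) ++ ((if r2 = true then [n2] else []) ++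
      ((if r3 = true then [n3] else []) ++ (if r4 = true then [n4] else [])))).length = _
    cases r1 <;> cases r2 <;> cases r3 <;> cases r4 <;> rfl
  have hperm : L.Perm [b, c] := by
    rw [List.perm_ext_iff_of_nodup hL (by simp [hbc])]
    intro d
    have h1 : d ∈ L ↔ N d := by
      rw [hN d]
      show d ∈ ((if r1 = true then [n1] else []) ++ ((if r2 = true then [n2] else []) ++
        ((if r3 = true then [n3] else []) ++ (if r4 = true then [n4] else [])))) ↔ _
      cases r1 <;> cases r2 <;> cases r3 <;> cases r4 <;> simp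
    rw [h1, hd d]
    simp
  rw [← hlen, hperm.length_eq]
  rfl

/-- the hypotheses -/
structure Hyp (p : Par) (E : Vx → Vx → Prop) : Prop where
  cNF : p.NF
  cVM : p.VM
  cFK : p.FK
  cFN : p.FN
  ham : Ham (fun a => a ∈ p.V) E
  hF : ∀ a b, p.F a b → E a b
  hE : ∀ a b, E a b → p.F a b ∨ p.O a b

variable {p E}

theorem Hyp.sym (H : Hyp p E) (a b : Vx) : E a b ↔ E b a :=
  ⟨H.ham.symm a b, H.ham.symm b a⟩

theorem not_hub {x : ℕ} (hx : x ≠ p.K0) (y : ℕ) : p.hub x y = false := by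
  unfold Par.hub
  rw [decide_eq_false_iff_not]
  exact fun h => hx h.1

/-- the vertices of the formula graph on the left are those of the drawing -/
theorem Hyp.vert_lt (H : Hyp p E) {x y : ℕ} (hx : x < p.K0) :
    Vert (hC p.s p.M) (vC p.s p.M) (x, y) ↔ p.fd x y ≠ 0 := by
  unfold Vert Par.fd
  simp only
  rw [← ph_lt p hx, ← ph_lt p (show x - 1 < p.K0 by omega), ← pv_lt p hx, ← pv_lt p hx]
  have h0 : p.h 0 y ≠ 0 := fun h => by have := (H.cNF.boxh 0 y h).1; omega
  have h1 : p.v x 0 ≠ 0 := fun h => by have := (H.cNF.boxv x 0 h).2.2.1; omega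
  constructor
  · rintro (h | h | h | h)
    · rw [if_pos h]; omega
    · have hx0 : 0 < x := by
        by_contra hx0
        have : x - 1 = 0 := by omega
        rw [this] at h
        exact h0 h
      rw [if_pos (show 0 < x ∧ p.h (x - 1) y = 0 from ⟨hx0, h⟩)]; omega
    · rw [if_pos h]; omega
    · have hy0 : 0 < y := by
        by_contra hy0
        have : y - 1 = 0 := by omega
        rw [this] at h
        exact h1 h
      rw [if_pos (show 0 < y ∧ p.v x (y - 1) = 0 from ⟨hy0, h⟩)]; omega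
  · intro h
    by_contra h'
    simp only [not_or] at h'
    obtain ⟨a1, a2, a3, a4⟩ := h'
    rw [if_neg a1, if_neg (fun h => a2 h.2), if_neg a3, if_neg (fun h => a4 h.2)] at h
    exact h rfl

/-- degrees on the left -/
theorem Hyp.deg_lt (H : Hyp p E) {x y : ℕ} (hx : x < p.K0) (hx1 : 1 ≤ x) (hy1 : 1 ≤ y)
    (hV : Vert (hC p.s p.M) (vC p.s p.M) (x, y)) :
    (HU p E x y).toNat + (HU p E (x - 1) y).toNat + (VU p E x y).toNat +
      (VU p E x (y - 1)).toNat = 2 := by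
  classical
  have hfd : p.fd x y ≠ 0 := (H.vert_lt hx).mp hV
  have hhub : p.hub x y = false := not_hub (by omega) y
  have hmem : lat x y ∈ p.V := (H.cVM.lat x y).mpr ⟨hfd, hhub⟩
  obtain ⟨b, c, hbc, hd⟩ := H.ham.two (lat x y) hmem
  have hx1' : x - 1 < p.K0 := by omega
  have e1 : x - 1 + 1 = x := by omega
  have e2 : y - 1 + 1 = y := by omega
  have hh := H.cNF.h3 x y
  have hh' := H.cNF.h3 (x - 1) y
  have hv := H.cNF.v3 x y
  have hv' := H.cNF.v3 x (y - 1)
  refine count4 (fun d => E (lat x y) d) _ _ _ _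
    (if p.h x y = 0 then hm x y else lat (x + 1) y)
    (if p.h (x - 1) y = 0 then hm (x - 1) y else lat (x - 1) y)
    (if p.v x y = 0 then vm x y else lat x (y + 1))
    (if p.v x (y - 1) = 0 then vm x (y - 1) else lat x (y - 1)) ?_ ?_ ?_ ?_ ?_ ?_ ?_
    ⟨b, c, hbc, hd⟩
  · split_ifs <;> simp only [ne_eq, Prod.mk.injEq] <;> omega
  · split_ifs <;> simp only [ne_eq, Prod.mk.injEq] <;> omega
  · split_ifs <;> simp only [ne_eq, Prod.mk.injEq] <;> omega
  · split_ifs <;> simp only [ne_eq, Prod.mk.injEq] <;> omega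
  · split_ifs <;> simp only [ne_eq, Prod.mk.injEq] <;> omega
  · split_ifs <;> simp only [ne_eq, Prod.mk.injEq] <;> omega
  · intro d
    have hOH : HU p E x y = true ↔ p.h x y = 0 ∨ (p.h x y = 2 ∧ E (lat x y) (lat (x + 1) y)) := by
      unfold HU OH
      rw [if_pos hx, ← ph_lt p hx]
      rcases hh with h | h | h <;> simp [h]
    have hOH' : HU p E (x - 1) y = true ↔ p.h (x - 1) y = 0 ∨
        (p.h (x - 1) y = 2 ∧ E (lat x y) (lat (x - 1) y)) := by
      unfold HU OH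
      rw [if_pos hx1', ← ph_lt p hx1', e1, H.sym (lat (x - 1) y)]
      rcases hh' with h | h | h <;> simp [h]
    have hOV : VU p E x y = true ↔ p.v x y = 0 ∨ (p.v x y = 2 ∧ E (lat x y) (lat x (y + 1))) := by
      unfold VU OV
      rw [if_pos hx, ← pv_lt p hx]
      rcases hv with h | h | h <;> simp [h]
    have hOV' : VU p E x (y - 1) = true ↔ p.v x (y - 1) = 0 ∨
        (p.v x (y - 1) = 2 ∧ E (lat x y) (lat x (y - 1))) := by
      unfold VU OV
      rw [if_pos hx, ← pv_lt p hx, e2, H.sym (lat x (y - 1))]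
      rcases hv' with h | h | h <;> simp [h]
    rw [hOH, hOH', hOV, hOV']
    constructor
    · intro hEd
      rcases H.hE _ _ hEd with hF | hO | hO
      · rcases (H.cFN.lat x y d hhub).mp hF with ⟨h, rfl⟩ | ⟨_, h, rfl⟩ | ⟨h, rfl⟩ | ⟨_, h, rfl⟩
        · left; exact ⟨Or.inl h, by rw [if_pos h]⟩
        · right; left; exact ⟨Or.inl h, by rw [if_pos h]⟩
        · right; right; left; exact ⟨Or.inl h, by rw [if_pos h]⟩
        · right; right; right; exact ⟨Or.inl h, by rw [if_pos h]⟩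
      · rcases O1_inv p hO with ⟨x', y', h1, h2, h3, h4⟩ | ⟨x', y', h1, h2, h3, h4⟩ |
          ⟨i, c', h1, h2, h3, h4⟩
        · simp only [Prod.mk.injEq] at h1
          obtain ⟨_, rfl, rfl, _⟩ := h1
          left
          refine ⟨Or.inr ⟨h4, ?_⟩, ?_⟩
          · rw [← h2]; exact hEd
          · rw [if_neg (by rw [h4]; norm_num)]; exact h2
        · simp only [Prod.mk.injEq] at h1
          obtain ⟨_, rfl, rfl, _⟩ := h1
          right; right; left
          refine ⟨Or.inr ⟨h4, ?_⟩, ?_⟩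
          · rw [← h2]; exact hEd
          · rw [if_neg (by rw [h4]; norm_num)]; exact h2
        · simp only [Prod.mk.injEq] at h1
          exact absurd h1.1 (by norm_num)
      · rcases O1_inv p hO with ⟨x', y', h1, h2, h3, h4⟩ | ⟨x', y', h1, h2, h3, h4⟩ |
          ⟨i, c', h1, h2, h3, h4⟩
        · simp only [Prod.mk.injEq] at h2
          obtain ⟨_, rfl, rfl, _⟩ := h2
          right; left
          have e : x' + 1 - 1 = x' := by omega
          rw [e]
          refine ⟨Or.inr ⟨h4, ?_⟩, ?_⟩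
          · rw [← h1]; exact hEd
          · rw [if_neg (by rw [h4]; norm_num)]; exact h1
        · simp only [Prod.mk.injEq] at h2
          obtain ⟨_, rfl, rfl, _⟩ := h2
          right; right; right
          have e : y' + 1 - 1 = y' := by omega
          rw [e]
          refine ⟨Or.inr ⟨h4, ?_⟩, ?_⟩
          · rw [← h1]; exact hEd
          · rw [if_neg (by rw [h4]; norm_num)]; exact h1
        · simp only [Prod.mk.injEq] at h2
          exact absurd h2.1 (by norm_num)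
    · rintro (⟨h | h, rfl⟩ | ⟨h | h, rfl⟩ | ⟨h | h, rfl⟩ | ⟨h | h, rfl⟩)
      · rw [if_pos h]
        exact H.hF _ _ ((H.cFN.lat x y _ hhub).mpr (Or.inl ⟨h, rfl⟩))
      · rw [if_neg (by rw [h.1]; norm_num)]; exact h.2
      · rw [if_pos h]
        exact H.hF _ _ ((H.cFN.lat x y _ hhub).mpr (Or.inr (Or.inl ⟨by omega, h, rfl⟩)))
      · rw [if_neg (by rw [h.1]; norm_num)]; exact h.2
      · rw [if_pos h]
        exact H.hF _ _ ((H.cFN.lat x y _ hhub).mpr (Or.inr (Or.inr (Or.inl ⟨h, rfl⟩))))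
      · rw [if_neg (by rw [h.1]; norm_num)]; exact h.2
      · rw [if_pos h]
        exact H.hF _ _ ((H.cFN.lat x y _ hhub).mpr (Or.inr (Or.inr (Or.inr ⟨by omega, h, rfl⟩))))
      · rw [if_neg (by rw [h.1]; norm_num)]; exact h.2

/-- exactly one of the two ring edges at a ring vertex is used -/
theorem Hyp.ring_xor (H : Hyp p E) {i c : ℕ} (hi : i < p.rows) (hc : c < 4) :
    E (ring i c) (ring i ((c + 1) % 4)) ↔ ¬ E (ring i c) (ring i ((c + 3) % 4)) := by
  have hmem : ring i c ∈ p.V := (H.cVM.ring i c).mpr ⟨hi, hc⟩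
  obtain ⟨b, b', hbc, hd⟩ := H.ham.two (ring i c) hmem
  have hcoin : E (ring i c) (coin i c (p.fk i c)) :=
    H.hF _ _ ((H.cFN.ring i hi c hc _).mpr rfl)
  have hne1 : (coin i c (p.fk i c) : Vx) ≠ ring i ((c + 1) % 4) := by
    simp only [ne_eq, Prod.mk.injEq]; omega
  have hne2 : (coin i c (p.fk i c) : Vx) ≠ ring i ((c + 3) % 4) := by
    simp only [ne_eq, Prod.mk.injEq]; omega
  have hne3 : (ring i ((c + 1) % 4) : Vx) ≠ ring i ((c + 3) % 4) := by
    simp only [ne_eq, Prod.mk.injEq]; omega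
  have hall : ∀ d, E (ring i c) d → d = coin i c (p.fk i c) ∨ d = ring i ((c + 1) % 4) ∨
      d = ring i ((c + 3) % 4) := by
    intro d hEd
    rcases H.hE _ _ hEd with hF | hO | hO
    · exact Or.inl ((H.cFN.ring i hi c hc d).mp hF)
    · rcases O1_inv p hO with ⟨x', y', h1, h2, h3, h4⟩ | ⟨x', y', h1, h2, h3, h4⟩ |
          ⟨i', c', h1, h2, h3, h4⟩
      · simp only [Prod.mk.injEq] at h1
        exact absurd h1.1 (by norm_num)
      · simp only [Prod.mk.injEq] at h1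
        exact absurd h1.1 (by norm_num)
      · simp only [Prod.mk.injEq] at h1
        obtain ⟨_, rfl, rfl, _⟩ := h1
        exact Or.inr (Or.inl h2)
    · rcases O1_inv p hO with ⟨x', y', h1, h2, h3, h4⟩ | ⟨x', y', h1, h2, h3, h4⟩ |
          ⟨i', c', h1, h2, h3, h4⟩
      · simp only [Prod.mk.injEq] at h2
        exact absurd h2.1 (by norm_num)
      · simp only [Prod.mk.injEq] at h2
        exact absurd h2.1 (by norm_num)
      · simp only [Prod.mk.injEq] at h2
        obtain ⟨_, rfl, h5, _⟩ := h2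
        right; right
        have : c' = (c + 3) % 4 := by omega
        rw [h1, this]
  constructor
  · intro h1 h2
    have g0 := (hd _).mp hcoin
    have g1 := (hd _).mp h1
    have g2 := (hd _).mp h2
    rcases g0 with g0 | g0 <;> rcases g1 with g1 | g1 <;> rcases g2 with g2 | g2
    · exact hne1 (g0.trans g1.symm)
    · exact hne1 (g0.trans g1.symm)
    · exact hne2 (g0.trans g2.symm)
    · exact hne3 (g1.trans g2.symm)
    · exact hne3 (g1.trans g2.symm)
    · exact hne2 (g0.trans g2.symm)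
    · exact hne1 (g0.trans g1.symm)
    · exact hne1 (g0.trans g1.symm)
  · intro h2
    by_contra h1
    have hb := hall b ((hd b).mpr (Or.inl rfl))
    have hb' := hall b' ((hd b').mpr (Or.inr rfl))
    have key : ∀ d, E (ring i c) d → d = coin i c (p.fk i c) := by
      intro d hEd
      rcases hall d hEd with h | h | h
      · exact h
      · exact absurd (h ▸ hEd) h1
      · exact absurd (h ▸ hEd) h2
    exact hbc ((key b ((hd b).mpr (Or.inl rfl))).trans
      (key b' ((hd b').mpr (Or.inr rfl))).symm)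

/-! ### values at the right end -/

theorem hu_eq0 (j : ℕ) {y c : ℕ} (h : hC p.s p.M (5 + 4 * p.s.length + j) y = c) :
    hC p.s p.M (p.K0 + j) y = c := h

theorem rows_eq : p.rows = 2 * p.M + 1 := rfl

theorem HU_Kt (j : ℕ) {y : ℕ} (hy : y < 4) : HU p E (p.K0 + j) y = decide (y = 3 ∧ j < 2) := by
  have h := hC_T p.s p.M j y hy
  by_cases hc : y = 3 ∧ j < 2
  · rw [if_pos hc] at h
    rw [decide_eq_true hc]
    exact HU_0 p E h
  · rw [if_neg hc] at h
    rw [decide_eq_false hc]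
    exact HU_4 p E (by rw [K0_eq, h]; norm_num) (by rw [K0_eq, h]; norm_num)

theorem VU_Kt (j : ℕ) {y : ℕ} (hy : y < 4) : VU p E (p.K0 + j) y = decide (y = 3 ∧ j = 2) := by
  have h := vC_T p.s p.M j y hy
  by_cases hc : y = 3 ∧ j = 2
  · rw [if_pos hc] at h
    rw [decide_eq_true hc]
    exact VU_0 p E h
  · rw [if_neg hc] at h
    rw [decide_eq_false hc]
    exact VU_4 p E (by rw [K0_eq, h]; norm_num) (by rw [K0_eq, h]; norm_num)

theorem HU_Kr0 (j i r : ℕ) (hi : i < p.rows) (hr : r < 6) (h : hR r j = 0) :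
    HU p E (p.K0 + j) (4 + 6 * i + r) = true :=
  HU_0 p E ((hC_R p.s p.M j i r hi hr).trans h)

theorem VU_Kr0 (j i r : ℕ) (hi : i < p.rows) (hr : r < 6) (h : vR i r j = 0) :
    VU p E (p.K0 + j) (4 + 6 * i + r) = true :=
  VU_0 p E ((vC_R p.s p.M j i r hi hr).trans h)

theorem HU_Kr4 (j i r : ℕ) (hi : i < p.rows) (hr : r < 6) (h : hR r j = 4) :
    HU p E (p.K0 + j) (4 + 6 * i + r) = false := by
  have h' := (hC_R p.s p.M j i r hi hr).trans h
  exact HU_4 p E (by rw [K0_eq, h']; norm_num) (by rw [K0_eq, h']; norm_num)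

theorem VU_Kr4 (j i r : ℕ) (hi : i < p.rows) (hr : r < 6) (h : vR i r j = 4) :
    VU p E (p.K0 + j) (4 + 6 * i + r) = false := by
  have h' := (vC_R p.s p.M j i r hi hr).trans h
  exact VU_4 p E (by rw [K0_eq, h']; norm_num) (by rw [K0_eq, h']; norm_num)

theorem HU_out (x i r : ℕ) (hi : p.rows ≤ i) (hr : r < 6) :
    HU p E x (4 + 6 * i + r) = false := by
  have h' := hC_out p.s p.M x i r hi hr
  exact HU_4 p E (by rw [h']; norm_num) (by rw [h']; norm_num)

theorem VU_out (x i r : ℕ) (hi : p.rows ≤ i) (hr : r < 6) :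
    VU p E x (4 + 6 * i + r) = false := by
  have h' := vC_out p.s p.M x i r hi hr
  exact VU_4 p E (by rw [h']; norm_num) (by rw [h']; norm_num)

open Classical in
theorem HU_01 (i : ℕ) (hi : i < p.rows) :
    HU p E (p.K0 + 0) (4 + 6 * i + 3) = decide (E (ring i 0) (ring i 1)) := by
  have h' := hC_R p.s p.M 0 i 3 hi (by norm_num)
  have h2 : hC p.s p.M (p.K0 + 0) (4 + 6 * i + 3) = 2 := h'
  rw [HU_2 p E h2]
  unfold OH
  have e1 : (4 + 6 * i + 3 - 4) % 6 = 3 := by omega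
  have e2 : (4 + 6 * i + 3 - 4) / 6 = i := by omega
  rw [e1, e2, if_neg (by omega), if_pos rfl]

open Classical in
theorem HU_23 (i : ℕ) (hi : i < p.rows) :
    HU p E (p.K0 + 0) (4 + 6 * i + 4) = decide (E (ring i 2) (ring i 3)) := by
  have h' := hC_R p.s p.M 0 i 4 hi (by norm_num)
  have h2 : hC p.s p.M (p.K0 + 0) (4 + 6 * i + 4) = 2 := h'
  rw [HU_2 p E h2]
  unfold OH
  have e1 : (4 + 6 * i + 4 - 4) % 6 = 4 := by omega
  have e2 : (4 + 6 * i + 4 - 4) / 6 = i := by omega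
  rw [e1, e2, if_neg (by omega), if_neg (by norm_num)]

open Classical in
theorem VU_12 (i : ℕ) (hi : i < p.rows) :
    VU p E (p.K0 + 0) (4 + 6 * i + 3) = decide (E (ring i 1) (ring i 2)) := by
  have h' := vC_R p.s p.M 0 i 3 hi (by norm_num)
  have h2 : vC p.s p.M (p.K0 + 0) (4 + 6 * i + 3) = 2 := h'
  rw [VU_2 p E h2]
  unfold OV
  have e2 : (4 + 6 * i + 3 - 4) / 6 = i := by omega
  rw [e2, if_neg (by omega), if_pos (by omega)]

open Classical in
theorem VU_30 (i : ℕ) (hi : i < p.rows) :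
    VU p E (p.K0 + 1) (4 + 6 * i + 3) = decide (E (ring i 3) (ring i 0)) := by
  have h' := vC_R p.s p.M 1 i 3 hi (by norm_num)
  have h2 : vC p.s p.M (p.K0 + 1) (4 + 6 * i + 3) = 2 := h'
  rw [VU_2 p E h2]
  unfold OV
  have e2 : (4 + 6 * i + 3 - 4) / 6 = i := by omega
  rw [e2, if_neg (by omega), if_neg (by omega)]

theorem y_cases (y : ℕ) : y < 4 ∨ ∃ i r, r < 6 ∧ y = 4 + 6 * i + r := by
  by_cases h : y < 4
  · exact Or.inl h
  · exact Or.inr ⟨(y - 4) / 6, (y - 4) % 6, Nat.mod_lt _ (by norm_num), by omega⟩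

/-- the positions of the forced edges from `K0 - 1` to `K0` -/
def Kl (p : Par) (y : ℕ) : Prop :=
  y = 3 ∨ ∃ i < p.rows, y = 5 + 6 * i ∨ y = 7 + 6 * i ∨ y = 9 + 6 * i

theorem Hyp.HUm_true (H : Hyp p E) {y : ℕ} (h : Kl p y) :
    HU p E (p.K0 - 1) y = true ∧ hC p.s p.M (p.K0 - 1) y = 0 := by
  have h1 := (H.cNF.k0l y).mpr h
  have h2 : p.K0 - 1 < p.K0 := by rw [K0_eq]; omega
  rw [ph_lt p h2] at h1
  exact ⟨HU_0 p E h1, h1⟩

theorem Hyp.HUm_false (H : Hyp p E) {y : ℕ} (h : ¬ Kl p y) :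
    HU p E (p.K0 - 1) y = false ∧ hC p.s p.M (p.K0 - 1) y ≠ 0 := by
  have h2 : p.K0 - 1 < p.K0 := by rw [K0_eq]; omega
  have h1 : hC p.s p.M (p.K0 - 1) y ≠ 0 := by
    rw [← ph_lt p h2]
    exact fun h' => h ((H.cNF.k0l y).mp h')
  have h3 : hC p.s p.M (p.K0 - 1) y ≠ 2 := by
    rw [← ph_lt p h2]
    intro h'
    have := (H.cNF.oh _ _ h').2.1
    rw [K0_eq] at this
    omega
  exact ⟨HU_4 p E h1 h3, h1⟩

theorem Kl_odd {p : Par} {i r : ℕ} (hi : i < p.rows) (hr : r = 1 ∨ r = 3 ∨ r = 5) :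
    Kl p (4 + 6 * i + r) := by
  right
  refine ⟨i, hi, ?_⟩
  omega

theorem Kl_even {p : Par} {i r : ℕ} (hr : r = 0 ∨ r = 2 ∨ r = 4) : ¬ Kl p (4 + 6 * i + r) := by
  rintro (h | ⟨j, _, h⟩)
  · omega
  · omega

theorem Kl_out {p : Par} {i r : ℕ} (hi : p.rows ≤ i) (hr : r < 6) : ¬ Kl p (4 + 6 * i + r) := by
  rintro (h | ⟨j, hj, h⟩)
  · omega
  · omega

theorem toNat_xor (a b : Prop) [Decidable a] [Decidable b] (h : a ↔ ¬ b) :
    (decide a).toNat + (decide b).toNat = 1 := by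
  by_cases hb : b
  · have ha : ¬ a := fun ha => (h.mp ha) hb
    rw [decide_eq_true hb, decide_eq_false ha]; rfl
  · have ha : a := h.mpr hb
    rw [decide_eq_true ha, decide_eq_false hb]; rfl

theorem Hyp.x01 (H : Hyp p E) {i : ℕ} (hi : i < p.rows) :
    E (ring i 0) (ring i 1) ↔ ¬ E (ring i 3) (ring i 0) := by
  have h := H.ring_xor hi (c := 0) (by norm_num)
  rw [H.sym (ring i 3) (ring i 0)]
  exact h

theorem Hyp.x12 (H : Hyp p E) {i : ℕ} (hi : i < p.rows) :
    E (ring i 1) (ring i 2) ↔ ¬ E (ring i 0) (ring i 1) := by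
  have h := H.ring_xor hi (c := 1) (by norm_num)
  rw [H.sym (ring i 0) (ring i 1)]
  exact h

theorem Hyp.x23 (H : Hyp p E) {i : ℕ} (hi : i < p.rows) :
    E (ring i 2) (ring i 3) ↔ ¬ E (ring i 1) (ring i 2) := by
  have h := H.ring_xor hi (c := 2) (by norm_num)
  rw [H.sym (ring i 1) (ring i 2)]
  exact h

theorem Hyp.x30 (H : Hyp p E) {i : ℕ} (hi : i < p.rows) :
    E (ring i 3) (ring i 0) ↔ ¬ E (ring i 2) (ring i 3) := by
  have h := H.ring_xor hi (c := 3) (by norm_num)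
  rw [H.sym (ring i 2) (ring i 3)]
  exact h

theorem prev_eq (i r : ℕ) : 4 + 6 * i + (r + 1) - 1 = 4 + 6 * i + r := by omega

/-- the row `i - 1` ends before the row `i` -/
theorem prev_row (i : ℕ) (hi : 0 < i) : 4 + 6 * i + 0 - 1 = 4 + 6 * (i - 1) + 5 := by omega

theorem vR_5 (i j : ℕ) (h : j ≠ 2 ∨ i % 2 = 0) : vR i 5 j = 4 := by
  match j, h with
  | 0, _ => rfl
  | 1, _ => rfl
  | 2, h =>
    have h' : i % 2 = 0 := h.resolve_left (fun h => h rfl)
    show (if i % 2 = 0 then (if 5 < 4 then 0 else 4) else (if 4 ≤ 5 then 0 else 4)) = 4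
    rw [if_pos h']; rfl
  | (n + 3), _ => rfl

/-- nothing below the last row -/
theorem out_ne (j i r : ℕ) (hi : p.rows ≤ i) (hr : r < 6) :
    hC p.s p.M (p.K0 + j) (4 + 6 * i + r) ≠ 0 ∧ vC p.s p.M (p.K0 + j) (4 + 6 * i + r) ≠ 0 ∧
      vC p.s p.M (p.K0 + j) (4 + 6 * i + r - 1) ≠ 0 := by
  refine ⟨by rw [hC_out p.s p.M _ i r hi hr]; norm_num,
    by rw [vC_out p.s p.M _ i r hi hr]; norm_num, ?_⟩
  rcases Nat.eq_zero_or_pos r with hr0 | hr0
  · subst hr0
    have hpos : 0 < i := by rw [rows_eq] at hi; omega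
    rw [prev_row i hpos]
    by_cases hi2 : i - 1 < p.rows
    · have hpar : (i - 1) % 2 = 0 := by rw [rows_eq] at hi hi2; omega
      have h' := (vC_R p.s p.M j (i - 1) 5 hi2 (by norm_num)).trans
        (vR_5 (i - 1) j (Or.inr hpar))
      rw [K0_eq, h']; norm_num
    · rw [vC_out p.s p.M _ (i - 1) 5 (by rw [rows_eq] at *; omega) (by norm_num)]; norm_num
  · have e : 4 + 6 * i + r - 1 = 4 + 6 * i + (r - 1) := by omega
    rw [e, vC_out p.s p.M _ i (r - 1) hi (by omega)]; norm_num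

/-- values of the costs -/
theorem hC_K (j i r c : ℕ) (hi : i < p.rows) (hr : r < 6) (h : hR r j = c) :
    hC p.s p.M (p.K0 + j) (4 + 6 * i + r) = c := (hC_R p.s p.M j i r hi hr).trans h

theorem vC_K (j i r c : ℕ) (hi : i < p.rows) (hr : r < 6) (h : vR i r j = c) :
    vC p.s p.M (p.K0 + j) (4 + 6 * i + r) = c := (vC_R p.s p.M j i r hi hr).trans h

/-- the cost above the row `i`, in the columns `K0`, `K0 + 1` -/
theorem vC_above (j i : ℕ) (hj : j ≠ 2) (hi : i < p.rows) :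
    vC p.s p.M (p.K0 + j) (4 + 6 * i + 0 - 1) = 4 := by
  rcases Nat.eq_zero_or_pos i with hi0 | hi0
  · subst hi0
    have h := vC_T p.s p.M j 3 (by norm_num)
    rw [if_neg (fun h => hj h.2)] at h
    exact h
  · rw [prev_row i hi0]
    exact vC_K j (i - 1) 5 4 (by omega) (by norm_num) (vR_5 _ j (Or.inl hj))

/-- no vertex if all costs are not zero -/
theorem no_vert {x y : ℕ} (h1 : hC p.s p.M x y ≠ 0) (h2 : hC p.s p.M (x - 1) y ≠ 0)
    (h3 : vC p.s p.M x y ≠ 0) (h4 : vC p.s p.M x (y - 1) ≠ 0) :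
    ¬ Vert (hC p.s p.M) (vC p.s p.M) (x, y) := by
  rintro (h | h | h | h)
  · exact h1 h
  · exact h2 h
  · exact h3 h
  · exact h4 h

theorem four_ne {a : ℕ} (h : a = 4) : a ≠ 0 := by rw [h]; norm_num

/-- degrees in the column `K0` -/
theorem Hyp.deg_K0 (H : Hyp p E) {y : ℕ} (hy1 : 1 ≤ y)
    (hV : Vert (hC p.s p.M) (vC p.s p.M) (p.K0 + 0, y)) :
    (HU p E (p.K0 + 0) y).toNat + (HU p E (p.K0 - 1) y).toNat + (VU p E (p.K0 + 0) y).toNat +
      (VU p E (p.K0 + 0) (y - 1)).toNat = 2 := by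
  classical
  rcases y_cases y with hy | ⟨i, r, hr, rfl⟩
  · by_cases h3 : y = 3
    · subst h3
      rw [HU_Kt 0 (by norm_num), VU_Kt 0 (by norm_num), VU_Kt 0 (by norm_num),
        (H.HUm_true (Or.inl rfl)).1]
      rfl
    · exfalso
      have hK : ¬ Kl p y := by
        rintro (h | ⟨i, _, h⟩)
        · exact h3 h
        · omega
      refine no_vert ?_ (H.HUm_false hK).2 ?_ ?_ hV
      · have h' := hC_T p.s p.M 0 y hy
        rw [if_neg (fun h => h3 h.1)] at h'
        exact four_ne h'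
      · have h' := vC_T p.s p.M 0 y hy
        rw [if_neg (fun h => h3 h.1)] at h'
        exact four_ne h'
      · have h' := vC_T p.s p.M 0 (y - 1) (by omega)
        rw [if_neg (fun h => by omega)] at h'
        exact four_ne h'
  · by_cases hi : i < p.rows
    swap
    · exfalso
      have hi' : p.rows ≤ i := by omega
      obtain ⟨h1, h2, h3⟩ := out_ne (p := p) 0 i r hi' hr
      exact no_vert h1 (H.HUm_false (Kl_out hi' hr)).2 h2 h3 hV
    · interval_cases r
      · exact absurd hV (no_vert (four_ne (hC_K 0 i 0 4 hi hr rfl))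
          (H.HUm_false (Kl_even (by omega))).2 (four_ne (vC_K 0 i 0 4 hi hr rfl))
          (four_ne (vC_above 0 i (by norm_num) hi)))
      · rw [HU_Kr0 0 i 1 hi hr rfl, (H.HUm_true (Kl_odd hi (by omega))).1,
          VU_Kr4 0 i 1 hi hr rfl, prev_eq i 0, VU_Kr4 0 i 0 hi (by norm_num) rfl]
        rfl
      · exact absurd hV (no_vert (four_ne (hC_K 0 i 2 4 hi hr rfl))
          (H.HUm_false (Kl_even (by omega))).2 (four_ne (vC_K 0 i 2 4 hi hr rfl))
          (four_ne (by rw [prev_eq i 1]; exact vC_K 0 i 1 4 hi (by norm_num) rfl)))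
      · rw [HU_01 i hi, (H.HUm_true (Kl_odd hi (by omega))).1, VU_12 i hi, prev_eq i 2,
          VU_Kr4 0 i 2 hi (by norm_num) rfl]
        have h := toNat_xor _ _ (H.x12 hi)
        simp only [Bool.toNat_true, Bool.toNat_false]
        omega
      · rw [HU_23 i hi, (H.HUm_false (Kl_even (by omega))).1, VU_Kr0 0 i 4 hi hr rfl,
          prev_eq i 3, VU_12 i hi]
        have h := toNat_xor _ _ (H.x23 hi)
        simp only [Bool.toNat_true, Bool.toNat_false]
        omega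
      · rw [HU_Kr4 0 i 5 hi hr rfl, (H.HUm_true (Kl_odd hi (by omega))).1,
          VU_Kr4 0 i 5 hi hr rfl, prev_eq i 4, VU_Kr0 0 i 4 hi (by norm_num) rfl]
        rfl

/-- degrees in the column `K0 + 1` -/
theorem Hyp.deg_K1 (H : Hyp p E) {y : ℕ} (hy1 : 1 ≤ y)
    (hV : Vert (hC p.s p.M) (vC p.s p.M) (p.K0 + 1, y)) :
    (HU p E (p.K0 + 1) y).toNat + (HU p E (p.K0 + 0) y).toNat + (VU p E (p.K0 + 1) y).toNat +
      (VU p E (p.K0 + 1) (y - 1)).toNat = 2 := by
  classical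
  have hK : p.K0 + 1 - 1 = p.K0 + 0 := by omega
  rcases y_cases y with hy | ⟨i, r, hr, rfl⟩
  · by_cases h3 : y = 3
    · subst h3
      rw [HU_Kt 1 (by norm_num), HU_Kt 0 (by norm_num), VU_Kt 1 (by norm_num),
        VU_Kt 1 (by norm_num)]
      rfl
    · exfalso
      refine no_vert ?_ ?_ ?_ ?_ hV
      · have h' := hC_T p.s p.M 1 y hy
        rw [if_neg (fun h => h3 h.1)] at h'
        exact four_ne h'
      · have h' := hC_T p.s p.M 0 y hy
        rw [if_neg (fun h => h3 h.1)] at h'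
        rw [hK]
        exact four_ne h'
      · have h' := vC_T p.s p.M 1 y hy
        rw [if_neg (fun h => h3 h.1)] at h'
        exact four_ne h'
      · have h' := vC_T p.s p.M 1 (y - 1) (by omega)
        rw [if_neg (fun h => by omega)] at h'
        exact four_ne h'
  · by_cases hi : i < p.rows
    swap
    · exfalso
      have hi' : p.rows ≤ i := by omega
      obtain ⟨h1, h2, h3⟩ := out_ne (p := p) 1 i r hi' hr
      exact no_vert h1 (by rw [hK]; exact (out_ne (p := p) 0 i r hi' hr).1) h2 h3 hV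
    · interval_cases r
      · exact absurd hV (no_vert (four_ne (hC_K 1 i 0 4 hi hr rfl))
          (by rw [hK]; exact four_ne (hC_K 0 i 0 4 hi hr rfl))
          (four_ne (vC_K 1 i 0 4 hi hr rfl)) (four_ne (vC_above 1 i (by norm_num) hi)))
      · rw [HU_Kr4 1 i 1 hi hr rfl, HU_Kr0 0 i 1 hi hr rfl, VU_Kr0 1 i 1 hi hr rfl, prev_eq i 0,
          VU_Kr4 1 i 0 hi (by norm_num) rfl]
        rfl
      · rw [HU_Kr4 1 i 2 hi hr rfl, HU_Kr4 0 i 2 hi hr rfl, VU_Kr0 1 i 2 hi hr rfl, prev_eq i 1,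
          VU_Kr0 1 i 1 hi (by norm_num) rfl]
        rfl
      · rw [HU_Kr4 1 i 3 hi hr rfl, HU_01 i hi, VU_30 i hi, prev_eq i 2,
          VU_Kr0 1 i 2 hi (by norm_num) rfl]
        have h := toNat_xor _ _ (H.x01 hi)
        simp only [Bool.toNat_true, Bool.toNat_false]
        omega
      · rw [HU_Kr0 1 i 4 hi hr rfl, HU_23 i hi, VU_Kr4 1 i 4 hi hr rfl, prev_eq i 3, VU_30 i hi]
        have h := toNat_xor _ _ (H.x30 hi)
        simp only [Bool.toNat_true, Bool.toNat_false]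
        omega
      · exact absurd hV (no_vert (four_ne (hC_K 1 i 5 4 hi hr rfl))
          (by rw [hK]; exact four_ne (hC_K 0 i 5 4 hi hr rfl))
          (four_ne (vC_K 1 i 5 4 hi hr rfl))
          (four_ne (by rw [prev_eq i 4]; exact vC_K 1 i 4 4 hi (by norm_num) rfl)))

theorem vR_2 (i r : ℕ) : vR i r 2 =
    if i % 2 = 0 then (if r < 4 then 0 else 4) else (if 4 ≤ r then 0 else 4) := rfl

/-- the connectors -/
theorem vC_conn {i r : ℕ} (hi : i < p.rows) (hr : r < 6)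
    (h : (i % 2 = 0 ∧ r < 4) ∨ (i % 2 ≠ 0 ∧ 4 ≤ r)) :
    vC p.s p.M (p.K0 + 2) (4 + 6 * i + r) = 0 := by
  refine vC_K 2 i r 0 hi hr ?_
  rw [vR_2]
  rcases h with ⟨h1, h2⟩ | ⟨h1, h2⟩
  · rw [if_pos h1, if_pos h2]
  · rw [if_neg h1, if_pos h2]

theorem vC_noconn {i r : ℕ} (hi : i < p.rows) (hr : r < 6)
    (h : (i % 2 = 0 ∧ 4 ≤ r) ∨ (i % 2 ≠ 0 ∧ r < 4)) :
    vC p.s p.M (p.K0 + 2) (4 + 6 * i + r) = 4 := by
  refine vC_K 2 i r 4 hi hr ?_
  rw [vR_2]
  rcases h with ⟨h1, h2⟩ | ⟨h1, h2⟩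
  · rw [if_pos h1, if_neg (by omega)]
  · rw [if_neg h1, if_neg (by omega)]

theorem VU_conn {i r : ℕ} (hi : i < p.rows) (hr : r < 6)
    (h : (i % 2 = 0 ∧ r < 4) ∨ (i % 2 ≠ 0 ∧ 4 ≤ r)) :
    VU p E (p.K0 + 2) (4 + 6 * i + r) = true := VU_0 p E (vC_conn hi hr h)

theorem VU_noconn {i r : ℕ} (hi : i < p.rows) (hr : r < 6)
    (h : (i % 2 = 0 ∧ 4 ≤ r) ∨ (i % 2 ≠ 0 ∧ r < 4)) :
    VU p E (p.K0 + 2) (4 + 6 * i + r) = false := by
  have h' := vC_noconn (p := p) hi hr h
  exact VU_4 p E (by rw [h']; norm_num) (by rw [h']; norm_num)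

/-- degrees in the column `K0 + 2` -/
theorem deg_K2 {y : ℕ} (hy1 : 1 ≤ y) (hV : Vert (hC p.s p.M) (vC p.s p.M) (p.K0 + 2, y)) :
    (HU p E (p.K0 + 2) y).toNat + (HU p E (p.K0 + 1) y).toNat + (VU p E (p.K0 + 2) y).toNat +
      (VU p E (p.K0 + 2) (y - 1)).toNat = 2 := by
  classical
  have hK : p.K0 + 2 - 1 = p.K0 + 1 := by omega
  rcases y_cases y with hy | ⟨i, r, hr, rfl⟩
  · by_cases h3 : y = 3
    · subst h3
      rw [HU_Kt 2 (by norm_num), HU_Kt 1 (by norm_num), VU_Kt 2 (by norm_num),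
        VU_Kt 2 (by norm_num)]
      rfl
    · exfalso
      refine no_vert ?_ ?_ ?_ ?_ hV
      · have h' := hC_T p.s p.M 2 y hy
        rw [if_neg (fun h => h3 h.1)] at h'
        exact four_ne h'
      · have h' := hC_T p.s p.M 1 y hy
        rw [if_neg (fun h => h3 h.1)] at h'
        rw [hK]
        exact four_ne h'
      · have h' := vC_T p.s p.M 2 y hy
        rw [if_neg (fun h => h3 h.1)] at h'
        exact four_ne h'
      · have h' := vC_T p.s p.M 2 (y - 1) (by omega)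
        rw [if_neg (fun h => by omega)] at h'
        exact four_ne h'
  · by_cases hi : i < p.rows
    swap
    · exfalso
      have hi' : p.rows ≤ i := by omega
      obtain ⟨h1, h2, h3⟩ := out_ne (p := p) 2 i r hi' hr
      exact no_vert h1 (by rw [hK]; exact (out_ne (p := p) 1 i r hi' hr).1) h2 h3 hV
    · have hH2 : HU p E (p.K0 + 2) (4 + 6 * i + r) = false := by
        interval_cases r <;> exact HU_Kr4 2 i _ hi hr rfl
      have hC2 : hC p.s p.M (p.K0 + 2) (4 + 6 * i + r) = 4 := by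
        interval_cases r <;> exact hC_K 2 i _ 4 hi hr rfl
      by_cases h4 : r = 4
      · subst h4
        rw [hH2, HU_Kr0 1 i 4 hi hr rfl, prev_eq i 3]
        by_cases hp : i % 2 = 0
        · rw [VU_noconn hi hr (Or.inl ⟨hp, by norm_num⟩),
            VU_conn hi (by norm_num) (Or.inl ⟨hp, by norm_num⟩)]
          rfl
        · rw [VU_conn hi hr (Or.inr ⟨hp, by norm_num⟩),
            VU_noconn hi (by norm_num) (Or.inr ⟨hp, by norm_num⟩)]
          rfl
      · have hH1 : HU p E (p.K0 + 1) (4 + 6 * i + r) = false := by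
          interval_cases r
          · exact HU_Kr4 1 i _ hi hr rfl
          · exact HU_Kr4 1 i _ hi hr rfl
          · exact HU_Kr4 1 i _ hi hr rfl
          · exact HU_Kr4 1 i _ hi hr rfl
          · exact absurd rfl h4
          · exact HU_Kr4 1 i _ hi hr rfl
        have hC1 : hC p.s p.M (p.K0 + 1) (4 + 6 * i + r) = 4 := by
          interval_cases r
          · exact hC_K 1 i _ 4 hi hr rfl
          · exact hC_K 1 i _ 4 hi hr rfl
          · exact hC_K 1 i _ 4 hi hr rfl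
          · exact hC_K 1 i _ 4 hi hr rfl
          · exact absurd rfl h4
          · exact hC_K 1 i _ 4 hi hr rfl
        -- the two vertical edges are both used or both not used
        have hboth : (VU p E (p.K0 + 2) (4 + 6 * i + r) = true ∧
            VU p E (p.K0 + 2) (4 + 6 * i + r - 1) = true) ∨
            (vC p.s p.M (p.K0 + 2) (4 + 6 * i + r) = 4 ∧
            vC p.s p.M (p.K0 + 2) (4 + 6 * i + r - 1) = 4) := by
          rcases Nat.eq_zero_or_pos r with hr0 | hr0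
          · subst hr0
            by_cases hp : i % 2 = 0
            · left
              refine ⟨VU_conn hi hr (Or.inl ⟨hp, by norm_num⟩), ?_⟩
              rcases Nat.eq_zero_or_pos i with hi0 | hi0
              · subst hi0
                have h := VU_Kt (p := p) (E := E) 2 (y := 3) (by norm_num)
                exact h
              · rw [prev_row i hi0]
                exact VU_conn (by omega) (by norm_num) (Or.inr ⟨by omega, by norm_num⟩)
            · right
              refine ⟨vC_noconn hi hr (Or.inr ⟨hp, by norm_num⟩), ?_⟩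
              have hi0 : 0 < i := by omega
              rw [prev_row i hi0]
              exact vC_noconn (by omega) (by norm_num) (Or.inl ⟨by omega, by norm_num⟩)
          · have e : 4 + 6 * i + r - 1 = 4 + 6 * i + (r - 1) := by omega
            rw [e]
            by_cases hp : i % 2 = 0
            · by_cases h5 : r < 4
              · left
                exact ⟨VU_conn hi hr (Or.inl ⟨hp, h5⟩),
                  VU_conn hi (by omega) (Or.inl ⟨hp, by omega⟩)⟩
              · right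
                exact ⟨vC_noconn hi hr (Or.inl ⟨hp, by omega⟩),
                  vC_noconn hi (by omega) (Or.inl ⟨hp, by omega⟩)⟩
            · by_cases h5 : r < 4
              · right
                exact ⟨vC_noconn hi hr (Or.inr ⟨hp, h5⟩),
                  vC_noconn hi (by omega) (Or.inr ⟨hp, by omega⟩)⟩
              · left
                exact ⟨VU_conn hi hr (Or.inr ⟨hp, by omega⟩),
                  VU_conn hi (by omega) (Or.inr ⟨hp, by omega⟩)⟩
        rcases hboth with ⟨h1, h2⟩ | ⟨h1, h2⟩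
        · rw [hH2, hH1, h1, h2]; rfl
        · exact absurd hV (no_vert (four_ne hC2) (by rw [hK]; exact four_ne hC1) (four_ne h1)
            (four_ne h2))

theorem hR_ge (r j : ℕ) (h : 2 ≤ j) : hR r j = 4 := by
  match r, j, h with
  | 0, (n + 2), _ => rfl
  | 1, (n + 2), _ => rfl
  | 2, (n + 2), _ => rfl
  | 3, (n + 2), _ => rfl
  | 4, (n + 2), _ => rfl
  | (r + 5), (n + 2), _ => rfl

theorem vR_ge (i r j : ℕ) (h : 3 ≤ j) : vR i r j = 4 := by
  match j, h with
  | (n + 3), _ => rfl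

/-- nothing behind the column `K0 + 2` -/
theorem hC_ge (j y : ℕ) (h : 2 ≤ j) : hC p.s p.M (p.K0 + j) y = 4 := by
  rcases y_cases y with hy | ⟨i, r, hr, rfl⟩
  · have h' := hC_T p.s p.M j y hy
    rw [if_neg (fun h => by omega)] at h'
    exact h'
  · by_cases hi : i < p.rows
    · exact hC_K j i r 4 hi hr (hR_ge r j h)
    · exact hC_out p.s p.M _ i r (by rw [rows_eq] at hi; omega) hr

theorem vC_ge (j y : ℕ) (h : 3 ≤ j) : vC p.s p.M (p.K0 + j) y = 4 := by
  rcases y_cases y with hy | ⟨i, r, hr, rfl⟩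
  · have h' := vC_T p.s p.M j y hy
    rw [if_neg (fun h => by omega)] at h'
    exact h'
  · by_cases hi : i < p.rows
    · exact vC_K j i r 4 hi hr (vR_ge i r j h)
    · exact vC_out p.s p.M _ i r (by rw [rows_eq] at hi; omega) hr

theorem no_vert_ge {x y : ℕ} (hx : p.K0 + 3 ≤ x) :
    ¬ Vert (hC p.s p.M) (vC p.s p.M) (x, y) := by
  obtain ⟨j, rfl⟩ : ∃ j, x = p.K0 + (j + 3) := ⟨x - p.K0 - 3, by omega⟩
  have e : p.K0 + (j + 3) - 1 = p.K0 + (j + 2) := by omega
  exact no_vert (four_ne (hC_ge _ _ (by omega))) (by rw [e]; exact four_ne (hC_ge _ _ (by omega)))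
    (four_ne (vC_ge _ _ (by omega))) (four_ne (vC_ge _ _ (by omega)))

/-- all degrees -/
theorem Hyp.deg (H : Hyp p E) {x y : ℕ} (hx1 : 1 ≤ x) (hy1 : 1 ≤ y)
    (hV : Vert (hC p.s p.M) (vC p.s p.M) (x, y)) :
    (HU p E x y).toNat + (HU p E (x - 1) y).toNat + (VU p E x y).toNat +
      (VU p E x (y - 1)).toNat = 2 := by
  by_cases h0 : x < p.K0
  · exact H.deg_lt h0 hx1 hy1 hV
  by_cases h1 : x = p.K0
  · subst h1
    exact H.deg_K0 hy1 hV
  by_cases h2 : x = p.K0 + 1
  · subst h2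
    exact H.deg_K1 hy1 hV
  by_cases h3 : x = p.K0 + 2
  · subst h3
    exact deg_K2 hy1 hV
  · exact absurd hV (no_vert_ge (by omega))

/-! ### the projection -/

/-- from the vertices of the drawing to the points of the formula graph -/
def pr (p : Par) (a : Vx) : Pt :=
  if a.1 = 0 then
    (if a.2.1 < p.K0 then (a.2.1, a.2.2.1)
    else if a.2.1 = p.K0 then
      (if 4 ≤ a.2.2.1 ∧ (a.2.2.1 - 4) % 6 = 2 then (p.K0 + 1, a.2.2.1) else (p.K0, a.2.2.1))
    else (p.K0 + 2, if a.2.2.1 = 3 then 3 else a.2.2.1 + 1))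
  else if a.1 = 1 then
    (if a.2.1 < p.K0 then (a.2.1, a.2.2.1)
    else if a.2.2.1 < 4 then (p.K0, a.2.2.1) else (p.K0 + 1, a.2.2.1 + 1))
  else if a.1 = 2 then
    (if a.2.1 < p.K0 then (a.2.1, a.2.2.1)
    else if a.2.1 = p.K0 then
      (if (a.2.2.1 - 4) % 6 = 1 then (p.K0 + 1, a.2.2.1)
      else if (a.2.2.1 - 4) % 6 = 2 then (p.K0 + 1, a.2.2.1 + 1)
      else if (a.2.2.1 - 4) % 6 = 3 then (p.K0, a.2.2.1 + 1) else (p.K0, a.2.2.1))
    else (p.K0 + 2, if a.2.2.1 = 3 then 3 else a.2.2.1 + 1))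
  else if a.2.2.1 = 0 then (p.K0 + 1, 4 + 6 * a.2.1 + 3)
  else if a.2.2.1 = 1 then (p.K0, 4 + 6 * a.2.1 + 3)
  else if a.2.2.1 = 2 then (p.K0, 4 + 6 * a.2.1 + 4)
  else (p.K0 + 1, 4 + 6 * a.2.1 + 4)

theorem pr_lat_lt {x : ℕ} (hx : x < p.K0) (y : ℕ) : pr p (lat x y) = (x, y) := by
  unfold pr; rw [if_pos rfl, if_pos hx]

theorem pr_hm_lt {x : ℕ} (hx : x < p.K0) (y : ℕ) : pr p (hm x y) = (x, y) := by
  unfold pr; rw [if_neg (by norm_num), if_pos rfl, if_pos hx]

theorem pr_vm_lt {x : ℕ} (hx : x < p.K0) (y : ℕ) : pr p (vm x y) = (x, y) := by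
  unfold pr; rw [if_neg (by norm_num), if_neg (by norm_num), if_pos rfl, if_pos hx]

theorem pr_lat_K0 {y : ℕ} (h : ¬ (4 ≤ y ∧ (y - 4) % 6 = 2)) :
    pr p (lat p.K0 y) = (p.K0, y) := by
  unfold pr; rw [if_pos rfl, if_neg (lt_irrefl _), if_pos rfl, if_neg h]

theorem pr_lat_K0' (i : ℕ) : pr p (lat p.K0 (4 + 6 * i + 2)) = (p.K0 + 1, 4 + 6 * i + 2) := by
  unfold pr
  rw [if_pos rfl, if_neg (lt_irrefl _), if_pos rfl,
    if_pos (show 4 ≤ 4 + 6 * i + 2 ∧ (4 + 6 * i + 2 - 4) % 6 = 2 by omega)]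

theorem pr_lat_K1 (y : ℕ) :
    pr p (lat (p.K0 + 1) y) = (p.K0 + 2, if y = 3 then 3 else y + 1) := by
  unfold pr
  rw [if_pos rfl, if_neg (show ¬ (p.K0 + 1 < p.K0) by omega),
    if_neg (show ¬ (p.K0 + 1 = p.K0) by omega)]

theorem pr_hm_K0 {y : ℕ} (h : y < 4) : pr p (hm p.K0 y) = (p.K0, y) := by
  unfold pr
  rw [if_neg (by norm_num), if_pos rfl, if_neg (lt_irrefl _), if_pos h]

theorem pr_hm_K0' {y : ℕ} (h : ¬ y < 4) : pr p (hm p.K0 y) = (p.K0 + 1, y + 1) := by
  unfold pr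
  rw [if_neg (by norm_num), if_pos rfl, if_neg (lt_irrefl _), if_neg h]

theorem pr_vm_K0_1 (i : ℕ) : pr p (vm p.K0 (4 + 6 * i + 1)) = (p.K0 + 1, 4 + 6 * i + 1) := by
  unfold pr
  rw [if_neg (by norm_num), if_neg (by norm_num), if_pos rfl, if_neg (lt_irrefl _), if_pos rfl,
    if_pos (show (4 + 6 * i + 1 - 4) % 6 = 1 by omega)]

theorem pr_vm_K0_2 (i : ℕ) : pr p (vm p.K0 (4 + 6 * i + 2)) = (p.K0 + 1, 4 + 6 * i + 3) := by
  unfold pr
  rw [if_neg (by norm_num), if_neg (by norm_num), if_pos rfl, if_neg (lt_irrefl _), if_pos rfl,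
    if_neg (show ¬ (4 + 6 * i + 2 - 4) % 6 = 1 by omega),
    if_pos (show (4 + 6 * i + 2 - 4) % 6 = 2 by omega)]

theorem pr_vm_K0_3 (i : ℕ) : pr p (vm p.K0 (4 + 6 * i + 3)) = (p.K0, 4 + 6 * i + 4) := by
  unfold pr
  rw [if_neg (by norm_num), if_neg (by norm_num), if_pos rfl, if_neg (lt_irrefl _), if_pos rfl,
    if_neg (show ¬ (4 + 6 * i + 3 - 4) % 6 = 1 by omega),
    if_neg (show ¬ (4 + 6 * i + 3 - 4) % 6 = 2 by omega),
    if_pos (show (4 + 6 * i + 3 - 4) % 6 = 3 by omega)]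

theorem pr_vm_K0_4 (i : ℕ) : pr p (vm p.K0 (4 + 6 * i + 4)) = (p.K0, 4 + 6 * i + 4) := by
  unfold pr
  rw [if_neg (by norm_num), if_neg (by norm_num), if_pos rfl, if_neg (lt_irrefl _), if_pos rfl,
    if_neg (show ¬ (4 + 6 * i + 4 - 4) % 6 = 1 by omega),
    if_neg (show ¬ (4 + 6 * i + 4 - 4) % 6 = 2 by omega),
    if_neg (show ¬ (4 + 6 * i + 4 - 4) % 6 = 3 by omega)]

theorem pr_vm_K1 (y : ℕ) :
    pr p (vm (p.K0 + 1) y) = (p.K0 + 2, if y = 3 then 3 else y + 1) := by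
  unfold pr
  rw [if_neg (by norm_num), if_neg (by norm_num), if_pos rfl,
    if_neg (show ¬ (p.K0 + 1 < p.K0) by omega), if_neg (show ¬ (p.K0 + 1 = p.K0) by omega)]

theorem pr_coin (i c k : ℕ) : pr p (coin i c k) = pr p (ring i c) := by
  unfold pr; rfl

theorem pr_ring0 (i : ℕ) : pr p (ring i 0) = (p.K0 + 1, 4 + 6 * i + 3) := by
  unfold pr; rfl

theorem pr_ring1 (i : ℕ) : pr p (ring i 1) = (p.K0, 4 + 6 * i + 3) := by
  unfold pr; rfl

theorem pr_ring2 (i : ℕ) : pr p (ring i 2) = (p.K0, 4 + 6 * i + 4) := by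
  unfold pr; rfl

theorem pr_ring3 (i : ℕ) : pr p (ring i 3) = (p.K0 + 1, 4 + 6 * i + 4) := by
  unfold pr; rfl

theorem st_lat {x y : ℕ} (c : ℕ) (h : p.hub x y = false) : p.st x y c = lat x y := by
  unfold Par.st; rw [h]; rfl

theorem st_hub {i : ℕ} (c : ℕ) (hi : i < p.rows) :
    p.st p.K0 (4 + 6 * i + 3) c = coin i c (p.e + 2) := by
  have h : p.hub p.K0 (4 + 6 * i + 3) = true := by
    unfold Par.hub
    exact decide_eq_true ⟨rfl, by omega, by omega, by omega⟩
  have e : (4 + 6 * i + 3 - 4) / 6 = i := by omega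
  unfold Par.st
  rw [h, e]
  rfl

theorem not_hub' {x y : ℕ} (h : ¬ (4 ≤ y ∧ (y - 4) % 6 = 3)) : p.hub x y = false := by
  unfold Par.hub
  rw [decide_eq_false_iff_not]
  exact fun h' => h ⟨h'.2.1, h'.2.2.1⟩

/-- the forced pairs in the list -/
theorem FL_inv {a b : Vx} (h : (a, b) ∈ p.FL) :
    (∃ x y, p.h x y = 0 ∧ ((a = p.st x y 3 ∧ b = hm x y) ∨
      (a = hm x y ∧ b = p.st (x + 1) y 1))) ∨
    (∃ x y, p.v x y = 0 ∧ ((a = p.st x y 2 ∧ b = vm x y) ∨
      (a = vm x y ∧ b = p.st x (y + 1) 0))) ∨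
    (∃ i c k, b = coin i c k ∧ (a = ring i c ∨ a = coin i c (k - 1))) := by
  unfold Par.FL at h
  rw [List.mem_append] at h
  rcases h with h | h
  · obtain ⟨x, _, h⟩ := List.mem_flatMap.mp h
    obtain ⟨y, _, h⟩ := List.mem_flatMap.mp h
    unfold Par.fcell at h
    rw [List.mem_append] at h
    rcases h with h | h
    · left
      refine ⟨x, y, ?_⟩
      split_ifs at h with h0
      · refine ⟨h0, ?_⟩
        simp only [List.mem_cons, Prod.mk.injEq, List.not_mem_nil, or_false] at h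
        exact h
      · exact absurd h (List.not_mem_nil)
    · right; left
      refine ⟨x, y, ?_⟩
      split_ifs at h with h0
      · refine ⟨h0, ?_⟩
        simp only [List.mem_cons, Prod.mk.injEq, List.not_mem_nil, or_false] at h
        exact h
      · exact absurd h (List.not_mem_nil)
  · obtain ⟨i, _, h⟩ := List.mem_flatMap.mp h
    obtain ⟨c, _, h⟩ := List.mem_flatMap.mp h
    unfold Par.farm at h
    obtain ⟨k, _, h⟩ := List.mem_map.mp h
    right; right
    refine ⟨i, c, k, (congrArg Prod.snd h).symm, ?_⟩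
    have h1 := (congrArg Prod.fst h).symm
    simp only at h1
    split_ifs at h1
    · exact Or.inl h1
    · exact Or.inr h1

section closed

variable {S : Pt → Prop}

/-- closed sets, in the coordinates at the right end -/
theorem cl_conn (hS2 : ∀ x y, VU p E x y = true → (S (x, y) ↔ S (x, y + 1))) {y : ℕ}
    (hy : 4 ≤ y) (hv : p.v (p.K0 + 1) y = 0) : S (p.K0 + 2, y + 1) ↔ S (p.K0 + 2, y + 2) := by
  rw [pv_K1] at hv
  obtain ⟨_, h1, h2⟩ := hv
  refine hS2 _ _ ?_
  rcases y_cases (y + 1) with h | ⟨i, r, hr, he⟩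
  · omega
  · rw [he]
    have hi : i < p.rows := by rw [rows_eq]; omega
    refine VU_conn hi hr ?_
    omega

theorem Hyp.cl_H1 (H : Hyp p E) {x y : ℕ} (h : p.h x y = 0) :
    pr p (p.st x y 3) = pr p (hm x y) := by
  by_cases hx : x < p.K0
  · rw [st_lat 3 (not_hub (by omega) y), pr_lat_lt hx, pr_hm_lt hx]
  by_cases hx' : x = p.K0
  · subst hx'
    rcases (H.cNF.k0h y).mp h with rfl | ⟨i, hi, rfl⟩
    · rw [st_lat 3 (not_hub' (by omega)), pr_lat_K0 (by omega), pr_hm_K0 (by norm_num)]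
    · have e : 7 + 6 * i = 4 + 6 * i + 3 := by omega
      rw [e, st_hub 3 hi, pr_coin, pr_ring3, pr_hm_K0' (by omega)]
  · exact absurd h (by rw [ph_gt p (by omega)]; norm_num)

theorem Hyp.cl_H2 (H : Hyp p E)
    (hS1 : ∀ x y, HU p E x y = true → (S (x, y) ↔ S (x + 1, y))) {x y : ℕ} (h : p.h x y = 0) :
    S (pr p (hm x y)) ↔ S (pr p (p.st (x + 1) y 1)) := by
  by_cases hx : x + 1 < p.K0
  · rw [st_lat 1 (not_hub (by omega) y), pr_lat_lt hx, pr_hm_lt (by omega)]
    refine hS1 x y (HU_0 p E ?_)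
    rw [← ph_lt p (by omega)]; exact h
  by_cases hx' : x + 1 = p.K0
  · have hlt : x < p.K0 := by omega
    have e : S (x, y) ↔ S (x + 1, y) := hS1 x y (HU_0 p E (by rw [← ph_lt p hlt]; exact h))
    have h2 : pr p (p.st (x + 1) y 1) = (x + 1, y) := by
      have hxe : x = p.K0 - 1 := by omega
      have h' := h
      rw [hxe] at h'
      rw [hx']
      rcases (H.cNF.k0l y).mp h' with rfl | ⟨i, hi, h3 | h3 | h3⟩
      · rw [st_lat 1 (not_hub' (by omega)), pr_lat_K0 (by omega)]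
      · rw [st_lat 1 (not_hub' (by omega)), pr_lat_K0 (by omega)]
      · have e : y = 4 + 6 * i + 3 := by omega
        rw [e, st_hub 1 hi, pr_coin, pr_ring1]
      · rw [st_lat 1 (not_hub' (by omega)), pr_lat_K0 (by omega)]
    rw [h2, pr_hm_lt hlt]
    exact e
  by_cases hx2 : x = p.K0
  · subst hx2
    rcases (H.cNF.k0h y).mp h with rfl | ⟨i, hi, rfl⟩
    · rw [st_lat 1 (not_hub (by omega) 3), pr_lat_K1, if_pos rfl, pr_hm_K0 (by norm_num)]
      have e1 := hS1 (p.K0 + 0) 3 (by rw [HU_Kt 0 (by norm_num)]; rfl)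
      have e2 := hS1 (p.K0 + 1) 3 (by rw [HU_Kt 1 (by norm_num)]; rfl)
      exact e1.trans e2
    · have e : 7 + 6 * i = 4 + 6 * i + 3 := by omega
      rw [e, st_lat 1 (not_hub (by omega) _), pr_lat_K1, if_neg (by omega),
        pr_hm_K0' (by omega)]
      exact hS1 (p.K0 + 1) (4 + 6 * i + 4) (HU_Kr0 1 i 4 hi (by norm_num) rfl)
  · exact absurd h (by rw [ph_gt p (by omega)]; norm_num)

theorem Hyp.cl_V1 (H : Hyp p E)
    (hS1 : ∀ x y, HU p E x y = true → (S (x, y) ↔ S (x + 1, y)))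
    (hS2 : ∀ x y, VU p E x y = true → (S (x, y) ↔ S (x, y + 1))) {x y : ℕ}
    (h : p.v x y = 0) : S (pr p (p.st x y 2)) ↔ S (pr p (vm x y)) := by
  by_cases hx : x < p.K0
  · rw [st_lat 2 (not_hub (by omega) y), pr_lat_lt hx, pr_vm_lt hx]
  by_cases hx' : x = p.K0
  · subst hx'
    obtain ⟨i, hi, h1⟩ := (H.cNF.k0v y).mp h
    rcases h1 with h1 | h1 | h1 | h1
    · have e : y = 4 + 6 * i + 1 := by omega
      rw [e, st_lat 2 (not_hub' (by omega)), pr_lat_K0 (by omega), pr_vm_K0_1]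
      exact hS1 (p.K0 + 0) (4 + 6 * i + 1) (HU_Kr0 0 i 1 hi (by norm_num) rfl)
    · have e : y = 4 + 6 * i + 2 := by omega
      rw [e, st_lat 2 (not_hub' (by omega)), pr_lat_K0', pr_vm_K0_2]
      exact hS2 (p.K0 + 1) (4 + 6 * i + 2) (VU_Kr0 1 i 2 hi (by norm_num) rfl)
    · have e : y = 4 + 6 * i + 3 := by omega
      rw [e, st_hub 2 hi, pr_coin, pr_ring2, pr_vm_K0_3]
    · have e : y = 4 + 6 * i + 4 := by omega
      rw [e, st_lat 2 (not_hub' (by omega)), pr_lat_K0 (by omega), pr_vm_K0_4]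
  by_cases hx2 : x = p.K0 + 1
  · subst hx2
    rw [st_lat 2 (not_hub (by omega) y), pr_lat_K1, pr_vm_K1]
  · exact absurd h (by rw [pv_gt p (by omega)]; norm_num)

theorem Hyp.cl_V2 (H : Hyp p E)
    (hS2 : ∀ x y, VU p E x y = true → (S (x, y) ↔ S (x, y + 1))) {x y : ℕ}
    (h : p.v x y = 0) : S (pr p (vm x y)) ↔ S (pr p (p.st x (y + 1) 0)) := by
  by_cases hx : x < p.K0
  · rw [st_lat 0 (not_hub (by omega) _), pr_lat_lt hx, pr_vm_lt hx]
    refine hS2 x y (VU_0 p E ?_)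
    rw [← pv_lt p hx]; exact h
  by_cases hx' : x = p.K0
  · subst hx'
    obtain ⟨i, hi, h1⟩ := (H.cNF.k0v y).mp h
    rcases h1 with h1 | h1 | h1 | h1
    · have e : y = 4 + 6 * i + 1 := by omega
      have e' : 4 + 6 * i + 1 + 1 = 4 + 6 * i + 2 := by omega
      rw [e, e', st_lat 0 (not_hub' (by omega)), pr_lat_K0', pr_vm_K0_1]
      exact hS2 (p.K0 + 1) (4 + 6 * i + 1) (VU_Kr0 1 i 1 hi (by norm_num) rfl)
    · have e : y = 4 + 6 * i + 2 := by omega
      have e' : 4 + 6 * i + 2 + 1 = 4 + 6 * i + 3 := by omega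
      rw [e, e', st_hub 0 hi, pr_coin, pr_ring0, pr_vm_K0_2]
    · have e : y = 4 + 6 * i + 3 := by omega
      have e' : 4 + 6 * i + 3 + 1 = 4 + 6 * i + 4 := by omega
      rw [e, e', st_lat 0 (not_hub' (by omega)), pr_lat_K0 (by omega), pr_vm_K0_3]
    · have e : y = 4 + 6 * i + 4 := by omega
      have e' : 4 + 6 * i + 4 + 1 = 4 + 6 * i + 5 := by omega
      rw [e, e', st_lat 0 (not_hub' (by omega)), pr_lat_K0 (by omega), pr_vm_K0_4]
      exact hS2 (p.K0 + 0) (4 + 6 * i + 4) (VU_Kr0 0 i 4 hi (by norm_num) rfl)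
  by_cases hx2 : x = p.K0 + 1
  · subst hx2
    rw [st_lat 0 (not_hub (by omega) _), pr_lat_K1, pr_vm_K1]
    have hv := h
    rw [pv_K1] at hv
    by_cases h3 : y = 3
    · subst h3
      rw [if_pos rfl, if_neg (by norm_num)]
      have hr0 : 0 < p.rows := by rw [rows_eq]; omega
      have e1 := hS2 (p.K0 + 2) 3 (by rw [VU_Kt 2 (by norm_num)]; rfl)
      have e2 := hS2 (p.K0 + 2) (4 + 6 * 0 + 0) (VU_conn hr0 (by norm_num)
        (Or.inl ⟨by norm_num, by norm_num⟩))
      exact e1.trans e2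
    · rw [if_neg h3, if_neg (by omega)]
      exact cl_conn hS2 (by omega) h
  · exact absurd h (by rw [pv_gt p (by omega)]; norm_num)

/-- `S ∘ pr` is closed -/
theorem Hyp.closed (H : Hyp p E)
    (hS1 : ∀ x y, HU p E x y = true → (S (x, y) ↔ S (x + 1, y)))
    (hS2 : ∀ x y, VU p E x y = true → (S (x, y) ↔ S (x, y + 1))) (a b : Vx) (hE : E a b) :
    S (pr p a) ↔ S (pr p b) := by
  classical
  have hFL : ∀ a b, (a, b) ∈ p.FL → (S (pr p a) ↔ S (pr p b)) := by
    intro a b h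
    rcases FL_inv h with ⟨x, y, h0, ⟨rfl, rfl⟩ | ⟨rfl, rfl⟩⟩ |
      ⟨x, y, h0, ⟨rfl, rfl⟩ | ⟨rfl, rfl⟩⟩ | ⟨i, c, k, rfl, rfl | rfl⟩
    · rw [H.cl_H1 h0]
    · exact H.cl_H2 hS1 h0
    · exact H.cl_V1 hS1 hS2 h0
    · exact H.cl_V2 hS2 h0
    · rw [pr_coin]
    · rw [pr_coin, pr_coin]
  have hO : ∀ a b, p.O1 a b → E a b → (S (pr p a) ↔ S (pr p b)) := by
    intro a b h hEd
    rcases O1_inv p h with ⟨x, y, rfl, rfl, hx, h2⟩ | ⟨x, y, rfl, rfl, hx, h2⟩ |
      ⟨i, c, rfl, rfl, hi, hc⟩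
    · have hx1 := (H.cNF.oh x y h2).2.1
      rw [pr_lat_lt hx, pr_lat_lt hx1]
      refine hS1 x y ?_
      rw [ph_lt p hx] at h2
      rw [HU_2 p E h2]
      unfold OH
      rw [if_pos hx]
      exact decide_eq_true hEd
    · rw [pr_lat_lt hx, pr_lat_lt hx]
      refine hS2 x y ?_
      rw [pv_lt p hx] at h2
      rw [VU_2 p E h2]
      unfold OV
      rw [if_pos hx]
      exact decide_eq_true hEd
    · have hc' : c = 0 ∨ c = 1 ∨ c = 2 ∨ c = 3 := by omega
      rcases hc' with rfl | rfl | rfl | rfl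
      · have hEd' : E (ring i 0) (ring i 1) := hEd
        show S (pr p (ring i 0)) ↔ S (pr p (ring i 1))
        rw [pr_ring0, pr_ring1]
        exact (hS1 (p.K0 + 0) (4 + 6 * i + 3)
          (by rw [HU_01 i hi]; exact decide_eq_true hEd')).symm
      · have hEd' : E (ring i 1) (ring i 2) := hEd
        show S (pr p (ring i 1)) ↔ S (pr p (ring i 2))
        rw [pr_ring1, pr_ring2]
        exact hS2 (p.K0 + 0) (4 + 6 * i + 3)
          (by rw [VU_12 i hi]; exact decide_eq_true hEd')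
      · have hEd' : E (ring i 2) (ring i 3) := hEd
        show S (pr p (ring i 2)) ↔ S (pr p (ring i 3))
        rw [pr_ring2, pr_ring3]
        exact hS1 (p.K0 + 0) (4 + 6 * i + 4)
          (by rw [HU_23 i hi]; exact decide_eq_true hEd')
      · have hEd' : E (ring i 3) (ring i 0) := hEd
        show S (pr p (ring i 3)) ↔ S (pr p (ring i 0))
        rw [pr_ring3, pr_ring0]
        exact (hS2 (p.K0 + 1) (4 + 6 * i + 3)
          (by rw [VU_30 i hi]; exact decide_eq_true hEd')).symm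
  rcases H.hE a b hE with (h | h) | (h | h)
  · exact hFL a b h
  · exact (hFL b a h).symm
  · exact hO a b h hE
  · exact (hO b a h (H.ham.symm a b hE)).symm

theorem fd_h {x y : ℕ} (h : p.h x y = 0) : p.fd x y ≠ 0 := by
  unfold Par.fd; rw [if_pos h]; omega

theorem fd_v {x y : ℕ} (h : p.v x y = 0) : p.fd x y ≠ 0 := by
  unfold Par.fd; rw [if_pos h]; omega

theorem fd_h' {x y : ℕ} (h : p.h x y = 0) : p.fd (x + 1) y ≠ 0 := by
  unfold Par.fd
  rw [if_pos (show 0 < x + 1 ∧ p.h (x + 1 - 1) y = 0 from ⟨by omega, h⟩)]; omega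

theorem fd_v' {x y : ℕ} (h : p.v x y = 0) : p.fd x (y + 1) ≠ 0 := by
  unfold Par.fd
  rw [if_pos (show 0 < y + 1 ∧ p.v x (y + 1 - 1) = 0 from ⟨by omega, h⟩)]; omega

/-- the vertices in the column `K0` -/
theorem Hyp.vert_K0 (H : Hyp p E) {y : ℕ}
    (hV : Vert (hC p.s p.M) (vC p.s p.M) (p.K0 + 0, y)) : y = 3 ∨ ∃ i < p.rows,
      y = 4 + 6 * i + 1 ∨ y = 4 + 6 * i + 3 ∨ y = 4 + 6 * i + 4 ∨ y = 4 + 6 * i + 5 := by
  rcases y_cases y with hy | ⟨i, r, hr, rfl⟩
  · by_cases h3 : y = 3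
    · exact Or.inl h3
    · exfalso
      have hK : ¬ Kl p y := by
        rintro (h | ⟨i, _, h⟩)
        · exact h3 h
        · omega
      refine no_vert ?_ (H.HUm_false hK).2 ?_ ?_ hV
      · have h' := hC_T p.s p.M 0 y hy
        rw [if_neg (fun h => h3 h.1)] at h'
        exact four_ne h'
      · have h' := vC_T p.s p.M 0 y hy
        rw [if_neg (fun h => h3 h.1)] at h'
        exact four_ne h'
      · have h' := vC_T p.s p.M 0 (y - 1) (by omega)
        rw [if_neg (fun h => by omega)] at h'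
        exact four_ne h'
  · by_cases hi : i < p.rows
    swap
    · exfalso
      have hi' : p.rows ≤ i := by omega
      obtain ⟨h1, h2, h3⟩ := out_ne (p := p) 0 i r hi' hr
      exact no_vert h1 (H.HUm_false (Kl_out hi' hr)).2 h2 h3 hV
    · right
      refine ⟨i, hi, ?_⟩
      interval_cases r
      · exact absurd hV (no_vert (four_ne (hC_K 0 i 0 4 hi hr rfl))
          (H.HUm_false (Kl_even (by omega))).2 (four_ne (vC_K 0 i 0 4 hi hr rfl))
          (four_ne (vC_above 0 i (by norm_num) hi)))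
      · omega
      · exact absurd hV (no_vert (four_ne (hC_K 0 i 2 4 hi hr rfl))
          (H.HUm_false (Kl_even (by omega))).2 (four_ne (vC_K 0 i 2 4 hi hr rfl))
          (four_ne (by rw [prev_eq i 1]; exact vC_K 0 i 1 4 hi (by norm_num) rfl)))
      · omega
      · omega
      · omega

/-- the vertices in the column `K0 + 1` -/
theorem vert_K1 {y : ℕ}
    (hV : Vert (hC p.s p.M) (vC p.s p.M) (p.K0 + 1, y)) : y = 3 ∨ ∃ i < p.rows,
      y = 4 + 6 * i + 1 ∨ y = 4 + 6 * i + 2 ∨ y = 4 + 6 * i + 3 ∨ y = 4 + 6 * i + 4 := by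
  have hK : p.K0 + 1 - 1 = p.K0 + 0 := by omega
  rcases y_cases y with hy | ⟨i, r, hr, rfl⟩
  · by_cases h3 : y = 3
    · exact Or.inl h3
    · exfalso
      refine no_vert ?_ ?_ ?_ ?_ hV
      · have h' := hC_T p.s p.M 1 y hy
        rw [if_neg (fun h => h3 h.1)] at h'
        exact four_ne h'
      · have h' := hC_T p.s p.M 0 y hy
        rw [if_neg (fun h => h3 h.1)] at h'
        rw [hK]
        exact four_ne h'
      · have h' := vC_T p.s p.M 1 y hy
        rw [if_neg (fun h => h3 h.1)] at h'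
        exact four_ne h'
      · have h' := vC_T p.s p.M 1 (y - 1) (by omega)
        rw [if_neg (fun h => by omega)] at h'
        exact four_ne h'
  · by_cases hi : i < p.rows
    swap
    · exfalso
      have hi' : p.rows ≤ i := by omega
      obtain ⟨h1, h2, h3⟩ := out_ne (p := p) 1 i r hi' hr
      exact no_vert h1 (by rw [hK]; exact (out_ne (p := p) 0 i r hi' hr).1) h2 h3 hV
    · right
      refine ⟨i, hi, ?_⟩
      interval_cases r
      · exact absurd hV (no_vert (four_ne (hC_K 1 i 0 4 hi hr rfl))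
          (by rw [hK]; exact four_ne (hC_K 0 i 0 4 hi hr rfl))
          (four_ne (vC_K 1 i 0 4 hi hr rfl)) (four_ne (vC_above 1 i (by norm_num) hi)))
      · omega
      · omega
      · omega
      · omega
      · exact absurd hV (no_vert (four_ne (hC_K 1 i 5 4 hi hr rfl))
          (by rw [hK]; exact four_ne (hC_K 0 i 5 4 hi hr rfl))
          (four_ne (vC_K 1 i 5 4 hi hr rfl))
          (four_ne (by rw [prev_eq i 4]; exact vC_K 1 i 4 4 hi (by norm_num) rfl)))

/-- connectors of the formula graph and of the drawing -/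
theorem conn_conn {y : ℕ} (hy : 4 ≤ y) (h : vC p.s p.M (p.K0 + 2) y = 0) :
    p.v (p.K0 + 1) (y - 1) = 0 := by
  rcases y_cases y with h' | ⟨i, r, hr, rfl⟩
  · omega
  · by_cases hi : i < p.rows
    · rw [pv_K1]
      have hpar : (i % 2 = 0 ∧ r < 4) ∨ (i % 2 ≠ 0 ∧ 4 ≤ r) := by
        by_contra hc
        have h2 := vC_noconn (p := p) hi hr (by omega)
        rw [h] at h2
        exact absurd h2 (by norm_num)
      rw [rows_eq] at hi
      omega
    · have h2 := vC_out p.s p.M (p.K0 + 2) i r (by rw [rows_eq] at hi; omega) hr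
      rw [h] at h2
      exact absurd h2 (by norm_num)

/-- the vertices in the column `K0 + 2` -/
theorem vert_K2 {y : ℕ}
    (hV : Vert (hC p.s p.M) (vC p.s p.M) (p.K0 + 2, y)) : y = 3 ∨ y = 4 ∨
      (5 ≤ y ∧ ((∃ i < p.rows, y = 4 + 6 * i + 4) ∨ p.v (p.K0 + 1) (y - 1) = 0 ∨
        p.v (p.K0 + 1) (y - 2) = 0)) := by
  have hK : p.K0 + 2 - 1 = p.K0 + 1 := by omega
  by_cases h3 : y = 3
  · exact Or.inl h3
  by_cases h4 : y = 4
  · exact Or.inr (Or.inl h4)
  have h5 : 5 ≤ y := by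
    by_contra h5
    have hy : y < 4 := by omega
    refine no_vert ?_ ?_ ?_ ?_ hV
    · have h' := hC_T p.s p.M 2 y hy
      rw [if_neg (fun h => h3 h.1)] at h'
      exact four_ne h'
    · have h' := hC_T p.s p.M 1 y hy
      rw [if_neg (fun h => h3 h.1)] at h'
      rw [hK]
      exact four_ne h'
    · have h' := vC_T p.s p.M 2 y hy
      rw [if_neg (fun h => h3 h.1)] at h'
      exact four_ne h'
    · have h' := vC_T p.s p.M 2 (y - 1) (by omega)
      rw [if_neg (fun h => by omega)] at h'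
      exact four_ne h'
  right; right
  refine ⟨h5, ?_⟩
  rcases hV with h | h | h | h
  · exact absurd ((hC_ge 2 y (le_refl _)).symm.trans h) (by norm_num)
  · left
    have h' : hC p.s p.M (p.K0 + 1) y = 0 := h
    rcases y_cases y with hy | ⟨i, r, hr, rfl⟩
    · omega
    · by_cases hi : i < p.rows
      · refine ⟨i, hi, ?_⟩
        interval_cases r
        · exact absurd ((hC_K 1 i 0 4 hi hr rfl).symm.trans h') (by norm_num)
        · exact absurd ((hC_K 1 i 1 4 hi hr rfl).symm.trans h') (by norm_num)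
        · exact absurd ((hC_K 1 i 2 4 hi hr rfl).symm.trans h') (by norm_num)
        · exact absurd ((hC_K 1 i 3 4 hi hr rfl).symm.trans h') (by norm_num)
        · rfl
        · exact absurd ((hC_K 1 i 5 4 hi hr rfl).symm.trans h') (by norm_num)
      · have h2 := hC_out p.s p.M (p.K0 + 1) i r (by rw [rows_eq] at hi; omega) hr
        rw [h'] at h2
        exact absurd h2 (by norm_num)
  · right; left
    exact conn_conn (by omega) h
  · right; right
    have h' := conn_conn (p := p) (y := y - 1) (by omega) h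
    have e : y - 1 - 1 = y - 2 := by omega
    rw [e] at h'
    exact h'

/-- every vertex of the formula graph is reached -/
theorem Hyp.section' (H : Hyp p E)
    (hS1 : ∀ x y, HU p E x y = true → (S (x, y) ↔ S (x + 1, y)))
    (hS2 : ∀ x y, VU p E x y = true → (S (x, y) ↔ S (x, y + 1))) {x y : ℕ}
    (hV : Vert (hC p.s p.M) (vC p.s p.M) (x, y)) : ∃ a ∈ p.V, (S (pr p a) ↔ S (x, y)) := by
  have hh3 : p.h p.K0 3 = 0 := (H.cNF.k0h 3).mpr (Or.inl rfl)
  have hh7 : ∀ i < p.rows, p.h p.K0 (4 + 6 * i + 3) = 0 := fun i hi =>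
    (H.cNF.k0h _).mpr (Or.inr ⟨i, hi, by omega⟩)
  have hv : ∀ i < p.rows, ∀ r, 1 ≤ r → r ≤ 4 → p.v p.K0 (4 + 6 * i + r) = 0 :=
    fun i hi r h1 h2 => (H.cNF.k0v _).mpr ⟨i, hi, by omega⟩
  have mem3 : lat p.K0 3 ∈ p.V := (H.cVM.lat _ _).mpr ⟨fd_h hh3, not_hub' (by omega)⟩
  have mem5 : ∀ i < p.rows, lat p.K0 (4 + 6 * i + 1) ∈ p.V := fun i hi =>
    (H.cVM.lat _ _).mpr ⟨fd_v (hv i hi 1 (by omega) (by omega)), not_hub' (by omega)⟩
  have mem6 : ∀ i < p.rows, lat p.K0 (4 + 6 * i + 2) ∈ p.V := fun i hi =>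
    (H.cVM.lat _ _).mpr ⟨fd_v (hv i hi 2 (by omega) (by omega)), not_hub' (by omega)⟩
  have mem9 : ∀ i < p.rows, lat p.K0 (4 + 6 * i + 5) ∈ p.V := fun i hi =>
    (H.cVM.lat _ _).mpr ⟨fd_v' (y := 4 + 6 * i + 4) (hv i hi 4 (by omega) (by omega)),
      not_hub' (by omega)⟩
  by_cases h0 : x < p.K0
  · refine ⟨lat x y, (H.cVM.lat x y).mpr ⟨(H.vert_lt h0).mp hV, not_hub (by omega) y⟩, ?_⟩
    rw [pr_lat_lt h0]
  by_cases h1 : x = p.K0
  · subst h1
    rcases H.vert_K0 hV with rfl | ⟨i, hi, rfl | rfl | rfl | rfl⟩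
    · exact ⟨_, mem3, by rw [pr_lat_K0 (by omega)]⟩
    · exact ⟨_, mem5 i hi, by rw [pr_lat_K0 (by omega)]⟩
    · exact ⟨ring i 1, (H.cVM.ring i 1).mpr ⟨hi, by norm_num⟩, by rw [pr_ring1]⟩
    · exact ⟨ring i 2, (H.cVM.ring i 2).mpr ⟨hi, by norm_num⟩, by rw [pr_ring2]⟩
    · exact ⟨_, mem9 i hi, by rw [pr_lat_K0 (by omega)]⟩
  by_cases h2 : x = p.K0 + 1
  · subst h2
    rcases vert_K1 hV with rfl | ⟨i, hi, rfl | rfl | rfl | rfl⟩
    · refine ⟨_, mem3, ?_⟩
      rw [pr_lat_K0 (by omega)]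
      exact hS1 (p.K0 + 0) 3 (by rw [HU_Kt 0 (by norm_num)]; rfl)
    · refine ⟨_, mem5 i hi, ?_⟩
      rw [pr_lat_K0 (by omega)]
      exact hS1 (p.K0 + 0) (4 + 6 * i + 1) (HU_Kr0 0 i 1 hi (by norm_num) rfl)
    · exact ⟨_, mem6 i hi, by rw [pr_lat_K0']⟩
    · exact ⟨ring i 0, (H.cVM.ring i 0).mpr ⟨hi, by norm_num⟩, by rw [pr_ring0]⟩
    · exact ⟨ring i 3, (H.cVM.ring i 3).mpr ⟨hi, by norm_num⟩, by rw [pr_ring3]⟩
  by_cases h3 : x = p.K0 + 2
  · subst h3
    have mem3' : lat (p.K0 + 1) 3 ∈ p.V :=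
      (H.cVM.lat _ _).mpr ⟨fd_h' hh3, not_hub (by omega) 3⟩
    rcases vert_K2 hV with rfl | rfl | ⟨h5, ⟨i, hi, rfl⟩ | h | h⟩
    · exact ⟨_, mem3', by rw [pr_lat_K1, if_pos rfl]⟩
    · refine ⟨_, mem3', ?_⟩
      rw [pr_lat_K1, if_pos rfl]
      exact hS2 (p.K0 + 2) 3 (by rw [VU_Kt 2 (by norm_num)]; rfl)
    · refine ⟨lat (p.K0 + 1) (4 + 6 * i + 3),
        (H.cVM.lat _ _).mpr ⟨fd_h' (hh7 i hi), not_hub (by omega) _⟩, ?_⟩
      rw [pr_lat_K1, if_neg (by omega)]
    · refine ⟨lat (p.K0 + 1) (y - 1),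
        (H.cVM.lat _ _).mpr ⟨fd_v h, not_hub (by omega) _⟩, ?_⟩
      have e : y - 1 + 1 = y := by omega
      rw [pr_lat_K1, if_neg (by omega), e]
    · have e' : y - 2 + 1 = y - 1 := by omega
      have hfd := fd_v' h
      rw [e'] at hfd
      refine ⟨lat (p.K0 + 1) (y - 1),
        (H.cVM.lat _ _).mpr ⟨hfd, not_hub (by omega) _⟩, ?_⟩
      have e : y - 1 + 1 = y := by omega
      rw [pr_lat_K1, if_neg (by omega), e]
  · exact absurd hV (no_vert_ge (by omega))

end closed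

/-- optional horizontal edges at the right end -/
theorem hC_two_K {j y : ℕ} (h : hC p.s p.M (p.K0 + j) y = 2) :
    j = 0 ∧ ∃ i < p.rows, y = 4 + 6 * i + 3 ∨ y = 4 + 6 * i + 4 := by
  rcases y_cases y with hy | ⟨i, r, hr, rfl⟩
  · exfalso
    have h' := hC_T p.s p.M j y hy
    rw [K0_eq] at h
    rw [h] at h'
    split_ifs at h'
    all_goals exact absurd h' (by norm_num)
  · by_cases hi : i < p.rows
    · have h' : hR r j = 2 := (hC_R p.s p.M j i r hi hr).symm.trans h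
      have hj : j < 2 := by
        by_contra hj
        rw [hR_ge r j (by omega)] at h'
        exact absurd h' (by norm_num)
      interval_cases j <;> interval_cases r <;> simp [hR] at h' ⊢
      · exact ⟨i, hi, Or.inl (by omega)⟩
      · exact ⟨i, hi, Or.inr (by omega)⟩
    · have h' := hC_out p.s p.M (p.K0 + j) i r (by rw [rows_eq] at hi; omega) hr
      rw [h] at h'
      exact absurd h' (by norm_num)

theorem vC_two_K {j y : ℕ} (h : vC p.s p.M (p.K0 + j) y = 2) :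
    (j = 0 ∨ j = 1) ∧ ∃ i < p.rows, y = 4 + 6 * i + 3 := by
  rcases y_cases y with hy | ⟨i, r, hr, rfl⟩
  · exfalso
    have h' := vC_T p.s p.M j y hy
    rw [K0_eq] at h
    rw [h] at h'
    split_ifs at h'
    all_goals exact absurd h' (by norm_num)
  · by_cases hi : i < p.rows
    · have h' : vR i r j = 2 := (vC_R p.s p.M j i r hi hr).symm.trans h
      have hj : j < 3 := by
        by_contra hj
        rw [vR_ge i r j (by omega)] at h'
        exact absurd h' (by norm_num)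
      have hj2 : j ≠ 2 := by
        rintro rfl
        rw [vR_2] at h'
        split_ifs at h'
        all_goals exact absurd h' (by norm_num)
      have hr3 : r = 3 := by
        have hj' : j = 0 ∨ j = 1 := by omega
        rcases hj' with rfl | rfl <;> interval_cases r <;> simp [vR] at h' ⊢
      exact ⟨by omega, i, hi, by omega⟩
    · have h' := vC_out p.s p.M (p.K0 + j) i r (by rw [rows_eq] at hi; omega) hr
      rw [h] at h'
      exact absurd h' (by norm_num)

theorem Hyp.hV (H : Hyp p E) {x y : ℕ} (h : HU p E x y = true) :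
    Vert (hC p.s p.M) (vC p.s p.M) (x, y) ∧ Vert (hC p.s p.M) (vC p.s p.M) (x + 1, y) := by
  by_cases h0 : hC p.s p.M x y = 0
  · exact ⟨Or.inl h0, Or.inr (Or.inl h0)⟩
  by_cases h2 : hC p.s p.M x y = 2
  · by_cases hx : x < p.K0
    · have h3 := H.cNF.oh x y (by rw [ph_lt p hx]; exact h2)
      exact ⟨(H.vert_lt hx).mpr (by rw [h3.2.2.2.1]; norm_num),
        (H.vert_lt h3.2.1).mpr (by rw [h3.2.2.2.2]; norm_num)⟩
    · obtain ⟨j, rfl⟩ : ∃ j, x = p.K0 + j := ⟨x - p.K0, by omega⟩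
      obtain ⟨rfl, i, hi, rfl | rfl⟩ := hC_two_K h2
      · refine ⟨Or.inr (Or.inl (H.HUm_true (Kl_odd hi (by omega))).2), ?_⟩
        refine Or.inr (Or.inr (Or.inr ?_))
        show vC p.s p.M (p.K0 + 1) (4 + 6 * i + 3 - 1) = 0
        rw [prev_eq i 2]
        exact vC_K 1 i 2 0 hi (by norm_num) rfl
      · exact ⟨Or.inr (Or.inr (Or.inl (vC_K 0 i 4 0 hi (by norm_num) rfl))),
          Or.inl (hC_K 1 i 4 0 hi (by norm_num) rfl)⟩
  · rw [HU_4 p E h0 h2] at h
    exact absurd h (by norm_num)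

theorem Hyp.vV (H : Hyp p E) {x y : ℕ} (h : VU p E x y = true) :
    Vert (hC p.s p.M) (vC p.s p.M) (x, y) ∧ Vert (hC p.s p.M) (vC p.s p.M) (x, y + 1) := by
  by_cases h0 : vC p.s p.M x y = 0
  · exact ⟨Or.inr (Or.inr (Or.inl h0)), Or.inr (Or.inr (Or.inr h0))⟩
  by_cases h2 : vC p.s p.M x y = 2
  · by_cases hx : x < p.K0
    · have h3 := H.cNF.ov x y (by rw [pv_lt p hx]; exact h2)
      exact ⟨(H.vert_lt hx).mpr (by rw [h3.2.2.2.1]; norm_num),
        (H.vert_lt hx).mpr (by rw [h3.2.2.2.2]; norm_num)⟩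
    · obtain ⟨j, rfl⟩ : ∃ j, x = p.K0 + j := ⟨x - p.K0, by omega⟩
      obtain ⟨rfl | rfl, i, hi, rfl⟩ := vC_two_K h2
      · exact ⟨Or.inr (Or.inl (H.HUm_true (Kl_odd hi (by omega))).2),
          Or.inr (Or.inr (Or.inl (vC_K 0 i 4 0 hi (by norm_num) rfl)))⟩
      · refine ⟨Or.inr (Or.inr (Or.inr ?_)), Or.inl (hC_K 1 i 4 0 hi (by norm_num) rfl)⟩
        show vC p.s p.M (p.K0 + 1) (4 + 6 * i + 3 - 1) = 0
        rw [prev_eq i 2]
        exact vC_K 1 i 2 0 hi (by norm_num) rfl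
  · rw [VU_4 p E h0 h2] at h
    exact absurd h (by norm_num)

end

theorem TR1 : specTR1 := by
  intro p W E _ hNF hVM hFK hFN hHam hF hE
  have H : Hyp p E := ⟨hNF, hVM, hFK, hFN, hHam, hF, hE⟩
  refine ⟨HU p E, VU p E, ?_, ?_⟩
  · refine ⟨fun x y h => HU_0 p E h, fun x y h h' => HU_4 p E h h', fun x y h => VU_0 p E h,
      fun x y h h' => VU_4 p E h h', fun x y h => H.hV h, fun x y h => H.vV h, ?_, ?_⟩
    · intro x y hV
      exact H.deg (x := x + 1) (y := y + 1) (by omega) (by omega) hV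
    · intro S hS1 hS2 a b ha hb hSa
      obtain ⟨α, hα, hα'⟩ := H.section' hS1 hS2 (x := a.1) (y := a.2) ha
      obtain ⟨β, hβ, hβ'⟩ := H.section' hS1 hS2 (x := b.1) (y := b.2) hb
      refine hβ'.mp (hHam.conn (fun c => S (pr p c)) ?_ α β hα hβ (hα'.mpr hSa))
      intro c d hcd hc
      exact (H.closed hS1 hS2 c d hcd).mp hc
  · intro i hi
    have h := VU_12 (p := p) (E := E) i hi
    have e : 7 + 6 * i = 4 + 6 * i + 3 := by omega
    rw [e]
    have h' : VU p E p.K0 (4 + 6 * i + 3) = VU p E (p.K0 + 0) (4 + 6 * i + 3) := rfl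
    rw [h', h]
    simp only [decide_eq_true_eq]

end Pool.Agent.Helper18.ES
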